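import Pool.Agent.V8H87.AB.Main
import Pool.Agent.N64.AF.M1

/-!
# Realisations with values in another tensor category
-/

set_option autoImplicit false
set_option linter.unusedSectionVars false

open CategoryTheory Limits MonoidalCategory Module Filter Topology
open Pool.Agent.Y112.SR Pool.Agent.Y112.KD Pool.Agent.N64.AF
open Pool.Agent.Y116.MT (tr)

namespace Pool.Agent.V8H87.AB

universe v v' u u' w t

section pair

variable {C : Type u} [Category.{v} C] [MonoidalCategory C]
variable {D : Type u'} [Category.{v'} D] [MonoidalCategory D]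

open Functor.LaxMonoidal Functor.OplaxMonoidal Functor.Monoidal in
/-- A strong monoidal functor preserves exact pairings (as in the starting file
`Pool/Agent/Helper609_TT/Func.lean`). -/
@[instance_reducible]
noncomputable def mapPairing (Φ : C ⥤ D) [Φ.Monoidal] (X Y : C) [ExactPairing X Y] :
    ExactPairing (Φ.obj X) (Φ.obj Y) where
  coevaluation' := ε Φ ≫ Φ.map (ExactPairing.coevaluation X Y) ≫ δ Φ X Y
  evaluation' := μ Φ Y X ≫ Φ.map (ExactPairing.evaluation X Y) ≫ η Φ
  coevaluation_evaluation' := by
    have h := congrArg Φ.map (ExactPairing.coevaluation_evaluation X Y)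
    simp only [Functor.map_comp, map_whiskerLeft, map_whiskerRight, map_associator_inv,
      map_leftUnitor_inv, map_rightUnitor] at h
    simp only [Category.assoc, μ_δ_assoc, cancel_epi, MonoidalCategory.whiskerLeft_comp,
      comp_whiskerRight] at h ⊢
    have h2 := Φ.obj Y ◁ ε Φ ≫= h =≫ (δ Φ (𝟙_ C) Y ≫ η Φ ▷ Φ.obj Y)
    simpa only [Category.assoc, μ_δ_assoc, ← MonoidalCategory.whiskerLeft_comp_assoc, ε_η,
      MonoidalCategory.whiskerLeft_id, Category.id_comp, ← comp_whiskerRight,
      MonoidalCategory.id_whiskerRight, Category.comp_id] using h2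
  evaluation_coevaluation' := by
    have h := congrArg Φ.map (ExactPairing.evaluation_coevaluation X Y)
    simp only [Functor.map_comp, map_whiskerLeft, map_whiskerRight, map_associator,
      map_leftUnitor, map_rightUnitor_inv] at h
    simp only [Category.assoc, μ_δ_assoc, cancel_epi, MonoidalCategory.whiskerLeft_comp,
      comp_whiskerRight] at h ⊢
    have h2 := ε Φ ▷ Φ.obj X ≫= h =≫ (δ Φ X (𝟙_ C) ≫ Φ.obj X ◁ η Φ)
    simpa only [Category.assoc, μ_δ_assoc, ← comp_whiskerRight_assoc, ε_η,
      MonoidalCategory.id_whiskerRight, Category.id_comp, ← MonoidalCategory.whiskerLeft_comp,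
      MonoidalCategory.whiskerLeft_id, Category.comp_id] using h2

/-- The powers of the image. -/
noncomputable def tpIso (Φ : C ⥤ D) [Φ.Monoidal] (T : C) : ∀ n : ℕ,
    Φ.obj (tp T n) ≅ tp (Φ.obj T) n
  | 0 => (Functor.Monoidal.εIso Φ).symm
  | n + 1 => (Functor.Monoidal.μIso Φ (tp T n) T).symm ≪≫ whiskerRightIso (tpIso Φ T n) (Φ.obj T)

end pair

section comp

variable {C : Type u} [Category.{v} C] [Preadditive C] [MonoidalCategory C] [SymmetricCategory C]
  {D : Type u'} [Category.{v'} D] [Preadditive D] [MonoidalCategory D] [SymmetricCategory D]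
  {K : Type w} [Field K]

open Functor.LaxMonoidal Functor.OplaxMonoidal Functor.Monoidal in
/-- The composition of a tensor functor and a realisation. -/
noncomputable def compR (G : C ⥤ D) [G.Additive] [G.Braided] (R : SuperRealisation D K) :
    SuperRealisation C K where
  H := G ⋙ R.H
  finite X := R.finite (G.obj X)
  par X := R.par (G.obj X)
  par_sq X := R.par_sq (G.obj X)
  par_natural f := R.par_natural (G.map f)
  par_unit := by
    have h1 := R.par_natural (ε G)
    rw [R.par_unit, Category.id_comp] at h1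
    have h2 := congrArg (fun z => R.H.map (η G) ≫ z) h1
    simp only [← R.H.map_comp_assoc, Functor.Monoidal.η_ε, R.H.map_id, Category.id_comp,
      ← R.H.map_comp] at h2
    exact h2
  par_tensor X Y := by
    change (μ R.H (G.obj X) (G.obj Y) ≫ R.H.map (μ G X Y)) ≫ R.par (G.obj (X ⊗ Y)) =
      (R.par (G.obj X) ⊗ₘ R.par (G.obj Y)) ≫ μ R.H (G.obj X) (G.obj Y) ≫ R.H.map (μ G X Y)
    rw [Category.assoc, R.par_natural, ← Category.assoc, R.par_tensor, Category.assoc]
  symm X Y := by
    have key : (2 : K) • ((μ R.H (G.obj X) (G.obj Y) ≫ R.H.map (μ G X Y)) ≫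
        R.H.map (G.map (β_ X Y).hom)) =
      (𝟙 (R.H.obj (G.obj X) ⊗ R.H.obj (G.obj Y)) +
        R.par (G.obj X) ▷ R.H.obj (G.obj Y) + R.H.obj (G.obj X) ◁ R.par (G.obj Y) -
        (R.par (G.obj X) ⊗ₘ R.par (G.obj Y))) ≫
      (β_ (R.H.obj (G.obj X)) (R.H.obj (G.obj Y))).hom ≫
        μ R.H (G.obj Y) (G.obj X) ≫ R.H.map (μ G Y X) := by
      have h1 := congrArg (fun z => z ≫ R.H.map (μ G Y X)) (R.symm (G.obj X) (G.obj Y))
      simp only [Category.assoc, Linear.smul_comp] at h1
      rw [← h1, Category.assoc, ← R.H.map_comp, ← R.H.map_comp, Functor.LaxBraided.braided]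
    exact key

end comp

end Pool.Agent.V8H87.AB
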