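import Pool.Agent.V8H87.AB.Peel

/-!
# The numbers of morphisms
-/

set_option autoImplicit false
set_option linter.unusedSectionVars false

open CategoryTheory Limits MonoidalCategory Module Filter Topology
open Pool.Agent.Y112.SR Pool.Agent.Y112.KD Pool.Agent.N64.AF
open Pool.Agent.Y116.MT (tr)

namespace Pool.Agent.V8H87.AB

universe v u w t

/-- The dimension of the space of the morphisms from `Y` to `Z` modulo numerical equivalence. -/
noncomputable def hn {C : Type u} [Category.{v} C] [Preadditive C] [MonoidalCategory C]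
    [MonoidalPreadditive C] [SymmetricCategory C] [RightRigidCategory C]
    (Λ : Type t) [Field Λ] [Linear Λ C] [MonoidalLinear Λ C] (Y Z : C) : ℕ :=
  finrank Λ ((Y ⟶ Z) ⧸ numIdeal Λ Y Z)

variable {C : Type u} [Category.{v} C] [Preadditive C] [MonoidalCategory C]
  [MonoidalPreadditive C] [SymmetricCategory C] [RightRigidCategory C]
  {Λ : Type t} [Field Λ] [CharZero Λ] [Linear Λ C] [MonoidalLinear Λ C]
  {K : Type w} [Field K] [Algebra Λ K] {R : SuperRealisation C K}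

lemma hn_eq (Y Z : C) : hn Λ Y Z = nr Λ (𝟙 Y) (𝟙 Z) := by
  rw [Pool.Agent.N199.AFA3.nr_eq]
  have h1 : Pool.Agent.N199.AFA3.sw Λ (𝟙 Y) (𝟙 Z) = ⊤ := by
    rw [eq_top_iff]
    intro x _
    exact Pool.Agent.N199.AFA3.mem_sw.2 ⟨x, by simp⟩
  rw [h1, Submodule.map_top, Submodule.range_mkQ, finrank_top]
  rfl

/-- The multiplicities in the powers of `T ⊗ Tᘁ`. -/
lemma nr_bridge (hR : IsReal Λ R) (T : C) {M : C} (e : M ⟶ M) (n : ℕ) :
    nr Λ (e ▷ tp T n) (𝟙 (tp T n)) = nr Λ e (𝟙 (tp (T ⊗ Tᘁ) n)) := by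
  let _ := Pool.Agent.N413.AFW.pairTp T Tᘁ n
  rw [nr_dual hR (tp T n) (Pool.Agent.N413.AFW.dp Tᘁ n), id_whiskerRight]
  exact (nr_congr_right hR (Pool.Agent.N413.AFW.isoTp T Tᘁ n) e
    (f' := 𝟙 (tp T n ⊗ Pool.Agent.N413.AFW.dp Tᘁ n))
    (by rw [Category.id_comp, Category.comp_id])).symm

section alg

variable [IsAlgClosed K]

/-- The number of morphisms: upper bound, limit. -/
theorem count (hR : IsReal Λ R) {T : C} (hT : R.CPlus T) (hb : 0 < bt R T)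
    (hN : ∀ m : ℕ, NilEnd (tp (T ⊗ Tᘁ) m)) (M : C) :
    ∃ (p : M ⟶ M) (N : ℕ), Peel (T ⊗ Tᘁ) M p ∧ IsRk R p N ∧ N ≤ bt R M ∧
      (∀ (m : ℕ) (v : M ⟶ tp (T ⊗ Tᘁ) m), NumTriv ((𝟙 M - p) ≫ v)) ∧
      (∀ n : ℕ, hn Λ (M ⊗ tp T n) (tp T n) ≤ N * hn Λ (tp T n) (tp T n)) ∧
      (∀ n : ℕ, 0 < hn Λ (tp T n) (tp T n)) ∧
      Tendsto (fun n : ℕ => (hn Λ (M ⊗ tp T n) (tp T n) : ℝ) / hn Λ (tp T n) (tp T n)) atTop
        (𝓝 (N : ℝ)) := by
  have hK : CharZero K := charZero_of_injective_algebraMap (algebraMap Λ K).injective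
  obtain ⟨hEP, hU⟩ := isPow_tensor_dual hR hT hb
  obtain ⟨p, hp, hmax⟩ := exists_peel hU hN M
  obtain ⟨N, hNr, hub, hlb⟩ := hp.main hU
  have hnn : ∀ n, hn Λ (M ⊗ tp T n) (tp T n) = nr Λ p (𝟙 (tp (T ⊗ Tᘁ) n)) := by
    intro n
    rw [hn_eq, ← id_whiskerRight, nr_bridge hR, ← nr_add hR (numIdem_of_idem hp.idem),
      nr_of_numTriv hR (fun v => hmax n v), add_zero]
  have hββ : ∀ n, hn Λ (tp T n) (tp T n) = numRank Λ (tp (T ⊗ Tᘁ) n) := by
    intro n
    rw [hn_eq, numRank_tensor_dual hR]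
  have hpos : ∀ n, 0 < numRank Λ (tp (T ⊗ Tᘁ) n) := fun n => (numRank_mono hU n).1
  have hup : ∀ n : ℕ, hn Λ (M ⊗ tp T n) (tp T n) ≤ N * hn Λ (tp T n) (tp T n) := by
    intro n
    rw [hnn, ← nr_bridge hR, hn_eq]
    exact hub _ (cplus_tp hR hT n)
  refine ⟨p, N, hp, hNr, (rk_le (R := R) hp.idem hNr).1, hmax, hup, fun n => ?_, ?_⟩
  · rw [hββ]
    exact hpos n
  · rw [Metric.tendsto_atTop]
    intro ε hε
    obtain ⟨hcp, hlim⟩ := numRank_tendsto hU
    have hl0 := hlim 0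
    rw [pow_zero] at hl0
    -- `β / cmp < 1 + η`
    obtain ⟨η, hη, hη2⟩ : ∃ η : ℝ, 0 < η ∧ (N : ℝ) * η < ε / 2 := by
      refine ⟨ε / (2 * ((N : ℝ) + 1)), by positivity, ?_⟩
      rw [mul_div_assoc', div_lt_div_iff₀ (by positivity) (by norm_num)]
      nlinarith
    have hev1 : ∀ᶠ n in atTop, (numRank Λ (tp (T ⊗ Tᘁ) (n + 0)) : ℝ) /
        cmpSeq (fun n => numRank Λ (tp (T ⊗ Tᘁ) n)) (bt R (T ⊗ Tᘁ)) n < 1 + η :=
      hl0.eventually_lt_const (by linarith)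
    have hev2 := hlb (ε / 4) (by linarith)
    have hev3 : ∀ᶠ n in atTop, (1 : ℝ) / 2 < (numRank Λ (tp (T ⊗ Tᘁ) (n + 0)) : ℝ) /
        cmpSeq (fun n => numRank Λ (tp (T ⊗ Tᘁ) n)) (bt R (T ⊗ Tᘁ)) n :=
      hl0.eventually_const_lt (by norm_num)
    obtain ⟨n0, hn0⟩ := eventually_atTop.1 ((hev1.and hev2).and hev3)
    refine ⟨n0, fun n hn => ?_⟩
    obtain ⟨⟨h1, h2⟩, h3⟩ := hn0 n hn
    have hup' := hup n
    rw [hnn n, hββ n] at hup' ⊢
    rw [Nat.add_zero] at h1 h3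
    set c : ℝ := (cmpSeq (fun n => numRank Λ (tp (T ⊗ Tᘁ) n)) (bt R (T ⊗ Tᘁ)) n : ℝ) with hc
    have hc0 : 0 < c := by rw [hc]; exact_mod_cast hcp n
    set β : ℝ := (numRank Λ (tp (T ⊗ Tᘁ) n) : ℝ) with hβ
    have hβ0 : 0 < β := by rw [hβ]; exact_mod_cast hpos n
    set a : ℝ := (nr Λ p (𝟙 (tp (T ⊗ Tᘁ) n)) : ℝ) with ha
    have ha0 : 0 ≤ a := by rw [ha]; exact Nat.cast_nonneg _
    have hu : a ≤ N * β := by rw [ha, hβ]; exact_mod_cast hup'
    rw [div_lt_iff₀ hc0] at h1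
    rw [lt_div_iff₀ hc0] at h3
    rw [Real.dist_eq, abs_lt]
    constructor
    · have h4 : (N : ℝ) - ε < a / β := by
        rw [lt_div_iff₀ hβ0]
        by_cases hNe : (N : ℝ) - ε ≤ 0
        · by_cases ha1 : a = 0
          · rw [ha1]
            have h5 : (N : ℝ) - ε < 0 := by
              rcases lt_or_eq_of_le hNe with h6 | h6
              · exact h6
              · exfalso
                have h7 : (N : ℝ) = ε := by linarith
                rw [ha1, h7] at h2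
                nlinarith
            exact mul_neg_of_neg_of_pos h5 hβ0
          · have : 0 < a := lt_of_le_of_ne ha0 (Ne.symm ha1)
            have h5 : ((N : ℝ) - ε) * β ≤ 0 := mul_nonpos_of_nonpos_of_nonneg hNe hβ0.le
            linarith
        · push Not at hNe
          have h5 : ((N : ℝ) - ε) * β < ((N : ℝ) - ε) * ((1 + η) * c) :=
            mul_lt_mul_of_pos_left h1 hNe
          have h6 : ((N : ℝ) - ε) * ((1 + η) * c) ≤ ((N : ℝ) - ε / 4) * c := by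
            have h7 : ((N : ℝ) - ε) * (1 + η) ≤ (N : ℝ) - ε / 4 := by nlinarith
            nlinarith
          linarith
      linarith
    · have h4 : a / β ≤ N := by
        rw [div_le_iff₀ hβ0]
        exact hu
      linarith

end alg

end Pool.Agent.V8H87.AB
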