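import Pool.Agent.N64.AF.W

/-!
# Splitting off direct summands
-/

set_option autoImplicit false
set_option linter.unusedSectionVars false

open CategoryTheory Limits MonoidalCategory Module Polynomial
open Pool.Agent.Y112.SR Pool.Agent.Y112.KD Pool.Agent.N64.AF
open Pool.Agent.Y116.MT (tr)

namespace Pool.Agent.V8H87.AB

universe v u w t

variable {C : Type u} [Category.{v} C] [Preadditive C] [MonoidalCategory C]
  [MonoidalPreadditive C] [SymmetricCategory C] [RightRigidCategory C]
  {Λ : Type t} [Field Λ] [CharZero Λ] [Linear Λ C] [MonoidalLinear Λ C]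
  {K : Type w} [Field K] [Algebra Λ K] {R : SuperRealisation C K}

/-- Numerically trivial endomorphisms of `X` are nilpotent. -/
def NilEnd (X : C) : Prop := ∀ x : End X, NumTriv (Y := X) (Z := X) x → IsNilpotent x

lemma numTriv_mul_left (hR : IsReal Λ R) {X : C} {x : End X} (hx : NumTriv (Y := X) (Z := X) x)
    (a : End X) : NumTriv (Y := X) (Z := X) (a * x) :=
  Pool.Agent.N199.AFA3.comp_right hR hx a

lemma numTriv_mul_right (hR : IsReal Λ R) {X : C} {x : End X} (hx : NumTriv (Y := X) (Z := X) x)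
    (a : End X) : NumTriv (Y := X) (Z := X) (x * a) :=
  Pool.Agent.N199.AFA3.comp_left hR hx a

lemma numTriv_neg {X Y : C} {x : X ⟶ Y} (hx : NumTriv x) : NumTriv (-x) := by
  intro g
  have h1 : (-x) ≫ g = -(x ≫ g) := Preadditive.neg_comp x g
  have h2 : tr (-(x ≫ g)) + tr (x ≫ g) = 0 := by
    rw [← tr_add', neg_add_cancel, tr_zero']
  have h3 := hx g
  rw [h3, add_zero] at h2
  rw [h1]
  exact h2

/-- a polynomial relation modulo numerical equivalence -/
lemma exists_poly (hR : IsReal Λ R) {X : C} (s : End X) :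
    ∃ P : Λ[X], P ≠ 0 ∧ NumTriv (Y := X) (Z := X) (aeval s P) := by
  by_contra hcon
  push Not at hcon
  have hfin := finite_num hR X X
  let φ : Λ[X] →ₗ[Λ] ((X ⟶ X) ⧸ numIdeal Λ X X) :=
    (numIdeal Λ X X).mkQ ∘ₗ (aeval s).toLinearMap
  have hφ : Function.Injective φ := by
    rw [← LinearMap.ker_eq_bot, LinearMap.ker_eq_bot']
    intro P hP
    by_contra h0
    refine hcon P h0 ?_
    exact (Submodule.Quotient.mk_eq_zero _).1 hP
  exact Polynomial.not_finite (R := Λ) (Module.Finite.of_injective φ hφ)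

/-- The Fitting idempotent of an endomorphism which is not nilpotent. -/
theorem fit (hR : IsReal Λ R) {X : C} (hN : NilEnd X) (s : End X) (hs : ¬ IsNilpotent s) :
    ∃ a e : End X, s * a = e ∧ a * s = e ∧ e * e = e ∧ e * a = a ∧ a * e = a ∧
      ¬ NumTriv (Y := X) (Z := X) e := by
  obtain ⟨P, hP0, hP⟩ := exists_poly hR s
  obtain ⟨f, hf, hnd⟩ := exists_eq_pow_rootMultiplicity_mul_and_not_dvd P hP0 0
  set k := P.rootMultiplicity 0
  rw [map_zero, sub_zero] at hf hnd
  have hirr : Irreducible (Polynomial.X : Λ[X]) := irreducible_X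
  have hc : IsCoprime ((Polynomial.X : Λ[X]) ^ (k + 1)) f :=
    ((hirr.coprime_iff_not_dvd).2 hnd).pow_left
  obtain ⟨a0, b0, hab⟩ := hc
  set Z : Λ[X] := a0 * Polynomial.X ^ (k + 1) with hZ
  set z : End X := aeval s Z with hz
  have hz1 : NumTriv (Y := X) (Z := X) (z - z ^ 2) := by
    have h1 : Z - Z ^ 2 = (a0 * b0 * Polynomial.X) * P := by
      have h2 : Z = 1 - b0 * f := by rw [← hab]; ring
      calc Z - Z ^ 2 = Z * (1 - Z) := by ring
        _ = Z * (b0 * f) := by rw [h2]; ring
        _ = (a0 * b0 * Polynomial.X) * P := by rw [hf, hZ]; ring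
    have h2 : z - z ^ 2 = aeval s (a0 * b0 * Polynomial.X) * aeval s P := by
      rw [← map_mul, ← h1, map_sub, map_pow]
    rw [h2]
    exact numTriv_mul_left hR hP _
  obtain ⟨n, hn⟩ := hN _ hz1
  have hn1 : (z - z ^ 2) ^ (n + 1) = 0 := by rw [pow_succ, hn, zero_mul]
  have hid := isIdempotentElem_one_sub_one_sub_pow_pow z (n + 1) hn1
  set E : Λ[X] := 1 - (1 - Z ^ (n + 1)) ^ (n + 1) with hE
  have hEe : aeval s E = 1 - (1 - z ^ (n + 1)) ^ (n + 1) := by
    rw [hE, map_sub, map_pow, map_sub, map_pow, map_one]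
  obtain ⟨c1, hc1⟩ : Z ^ (n + 1) ∣ E := by
    have h1 := sub_dvd_pow_sub_pow (1 : Λ[X]) (1 - Z ^ (n + 1)) (n + 1)
    rwa [one_pow, sub_sub_cancel] at h1
  obtain ⟨c, hc⟩ : (Polynomial.X : Λ[X]) ∣ E := by
    rw [hc1, hZ]
    refine Dvd.dvd.mul_right (Dvd.dvd.pow ?_ (Nat.succ_ne_zero n)) c1
    exact Dvd.dvd.mul_left (Dvd.dvd.pow dvd_rfl (Nat.succ_ne_zero k)) a0
  set e : End X := aeval s E with he
  have hee : e * e = e := by
    rw [hEe]
    exact hid
  have hsc : s * aeval s c = e := by
    rw [he, hc, map_mul, aeval_X]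
  have hcs : aeval s c * s = e := by
    rw [he, hc, mul_comm, map_mul, aeval_X]
  have hce : aeval s c * e = e * aeval s c := by
    rw [he, ← map_mul, ← map_mul, mul_comm]
  refine ⟨aeval s c * e, e, ?_, ?_, hee, ?_, ?_, ?_⟩
  · rw [← mul_assoc, hsc, hee]
  · rw [hce, mul_assoc, hcs, hee]
  · rw [hce, ← mul_assoc, hee]
  · rw [mul_assoc, hee]
  · intro he0
    apply hs
    obtain ⟨j, hj⟩ := hN _ he0
    have he1 : (e : End X) = 0 := by
      have h1 : ∀ i : ℕ, e ^ (i + 1) = e := by
        intro i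
        induction i with
        | zero => rw [zero_add, pow_one]
        | succ i ih => rw [pow_succ, ih, hee]
      rw [← h1 j, pow_succ]
      have h2 : (e : End X) ^ j = 0 := hj
      rw [h2, zero_mul]
    -- `z` is nilpotent
    have hu : (1 - z ^ (n + 1)) ^ (n + 1) = 1 := by
      have h1 : 1 - (1 - z ^ (n + 1)) ^ (n + 1) = 0 := by rw [← hEe, ← he1]
      exact (sub_eq_zero.1 h1).symm
    have hzz : z ^ (n + 1) = 0 := by
      obtain ⟨d, hd⟩ := sub_dvd_pow_sub_pow (1 : Λ[X]) Z (n + 1)
      rw [one_pow] at hd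
      have hd1 : 1 - z ^ (n + 1) = (1 - z) * aeval s d := by
        have := congrArg (aeval s) hd
        rw [map_sub, map_mul, map_pow, map_sub, map_one] at this
        exact this
      have hcomm : Commute (1 - z) (aeval s d) := by
        have h3 : (1 - z : End X) = aeval s (1 - Z) := by rw [map_sub, map_one]
        rw [h3]
        show aeval s (1 - Z) * aeval s d = aeval s d * aeval s (1 - Z)
        rw [← map_mul, ← map_mul, mul_comm]
      have h4 : (1 - z) ^ (n + 1) * aeval s d ^ (n + 1) = 1 := by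
        rw [← hcomm.mul_pow, ← hd1, hu]
      have h5 : z ^ (n + 1) * (1 - z) ^ (n + 1) = 0 := by
        have hcomm2 : Commute z (1 - z) := by
          show z * (1 - z) = (1 - z) * z
          noncomm_ring
        rw [← hcomm2.mul_pow]
        have h6 : z * (1 - z) = z - z ^ 2 := by noncomm_ring
        rw [h6]
        exact hn1
      calc z ^ (n + 1) = z ^ (n + 1) * ((1 - z) ^ (n + 1) * aeval s d ^ (n + 1)) := by
            rw [h4, mul_one]
        _ = 0 := by rw [← mul_assoc, h5, zero_mul]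
    have hunit : IsUnit (1 - z) := IsNilpotent.isUnit_one_sub ⟨n + 1, hzz⟩
    obtain ⟨y, hy⟩ := hunit.exists_right_inv
    have h7 : 1 - z = aeval s f * aeval s b0 := by
      have h8 := congrArg (aeval s) hab
      rw [map_add, map_one] at h8
      have h9 : aeval s (b0 * f) = aeval s f * aeval s b0 := by
        rw [← map_mul, mul_comm]
      rw [← h9, ← h8]
      show aeval s Z + aeval s (b0 * f) - aeval s Z = _
      abel
    have h8 : s ^ k = aeval s P * (aeval s b0 * y) := by
      rw [hf, map_mul, map_pow, aeval_X, mul_assoc, ← mul_assoc (aeval s f), ← h7, hy, mul_one]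
    have h9 : NumTriv (Y := X) (Z := X) (s ^ k) := by
      rw [h8]
      exact numTriv_mul_right hR hP _
    obtain ⟨i, hi⟩ := hN _ h9
    exact ⟨k * i, by rw [pow_mul]; exact hi⟩

end Pool.Agent.V8H87.AB
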