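import Pool.Agent.V8H87.AB.Hodge3

/-!
# The half law for the morphisms which come from a subcategory
-/

set_option autoImplicit false
set_option linter.unusedSectionVars false

open CategoryTheory Limits MonoidalCategory Module Filter Topology
open Pool.Agent.Y112.SR Pool.Agent.Y112.KD Pool.Agent.N64.AF
open Pool.Agent.Y116.MT (tr)
open scoped ENNReal

namespace Pool.Agent.V8H87.AB

universe v u u' w t

section

variable {C : Type u} [Category.{v} C] [Preadditive C] [MonoidalCategory C]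
  [MonoidalPreadditive C] [SymmetricCategory C] [RightRigidCategory C]
  {Λ : Type t} [Field Λ] [CharZero Λ] [Linear Λ C] [MonoidalLinear Λ C]
  {K : Type w} [Field K] [Algebra Λ K] {R : SuperRealisation C K}

/-- The rank modulo numerical equivalence is invariant under isomorphisms of the source. -/
lemma hn_iso_left (hR : IsReal Λ R) {Y Y' : C} (e : Y ≅ Y') (Z : C) : hn Λ Y Z = hn Λ Y' Z := by
  let E : (Y ⟶ Z) ≃ₗ[Λ] (Y' ⟶ Z) := Linear.homCongr Λ e (Iso.refl Z)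
  have hE : ∀ f, E f = e.inv ≫ f := fun f => by
    change (e.inv ≫ f) ≫ 𝟙 Z = _
    rw [Category.comp_id]
  have h1 : (numIdeal Λ Y Z).map (E : (Y ⟶ Z) →ₗ[Λ] (Y' ⟶ Z)) = numIdeal Λ Y' Z := by
    ext g
    rw [Submodule.mem_map]
    constructor
    · rintro ⟨f, hf, rfl⟩
      change NumTriv (E f)
      rw [hE]
      have h2 := NumTriv.comp hR (show NumTriv f from hf) e.inv (𝟙 Z)
      rwa [Category.comp_id] at h2
    · intro hg
      have h2 := NumTriv.comp hR (show NumTriv g from hg) e.hom (𝟙 Z)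
      rw [Category.comp_id] at h2
      refine ⟨e.hom ≫ g, h2, ?_⟩
      change E (e.hom ≫ g) = g
      rw [hE, Iso.inv_hom_id_assoc]
  exact (Submodule.Quotient.equiv (numIdeal Λ Y Z) (numIdeal Λ Y' Z) E h1).finrank_eq

end

variable {C : Type u} [Category.{v} C] [Preadditive C] [MonoidalCategory C]
  [MonoidalPreadditive C] [SymmetricCategory C] [RightRigidCategory C] [HasBinaryBiproducts C]
  {D : Type u'} [Category.{v} D] [Preadditive D] [MonoidalCategory D]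
  [MonoidalPreadditive D] [SymmetricCategory D] [RightRigidCategory D] [HasBinaryBiproducts D]
  {Λ : Type t} [Field Λ] [CharZero Λ] [Linear Λ C] [MonoidalLinear Λ C]
  [Linear Λ D] [MonoidalLinear Λ D]
  {K : Type w} [Field K] [IsAlgClosed K] [Algebra Λ K]
  {R : SuperRealisation D K} (G : C ⥤ D) [G.Additive] [G.Linear Λ] [G.Braided]

theorem half (hR : IsReal Λ R) (hD : ∀ {X Y : D} (f : X ⟶ Y), NumTriv f → f = 0)
    (hU : ∀ c : 𝟙_ C ⟶ 𝟙_ C, ∃ q : Λ, c = q • 𝟙 _) (hG : ∀ {X Y : C} (f : X ⟶ Y),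
      G.map f = 0 → f = 0) {T : C} (hT : (compR G R).CPlus T)
    {i : 𝟙_ C ⟶ T} {r : T ⟶ 𝟙_ C} (hir : i ≫ r = 𝟙 (𝟙_ C)) :
    ∃ κ : ℝ, (κ = 0 ∨ ∃ k : ℕ, 1 ≤ k ∧ κ = 1 / k) ∧
      Tendsto (fun n : ℕ => (hn Λ (tp T n) (tp T n) : ℝ) / hg Λ G (tp T n) (tp T n))
        atTop (𝓝 κ) ∧
      (∀ᶠ n : ℕ in atTop, 0 < hg Λ G (tp T n) (tp T n)) ∧
      (κ = 1 ↔ ∀ {X Y : C}, Thick T X → Thick T Y → ∀ ψ : G.obj X ⟶ G.obj Y,
        ∃ f : X ⟶ Y, G.map f = ψ) := by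
  have hRC := isReal_comp G hR hU
  have hb : bt R (G.obj (𝟙_ C)) = 1 := bt_unit (compR G R)
  have hMG : Thick (G.obj T) (G.obj (𝟙_ C)) := by
    have h1 : (Functor.LaxMonoidal.ε G ≫ G.map i) ≫ (G.map r ≫ Functor.OplaxMonoidal.η G) =
        𝟙 (𝟙_ D) := by
      rw [Category.assoc, ← Category.assoc (G.map i), ← G.map_comp, hir, G.map_id,
        Category.id_comp, Functor.Monoidal.ε_η]
    exact Thick.summand (Thick.unit h1) (Functor.OplaxMonoidal.η G) (Functor.LaxMonoidal.ε G)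
      (by simp)
  obtain ⟨N, κ, hN, hκ, hL, hev, hiff, hfull⟩ := hodge G hR hD hU hG hT hir (𝟙_ C) hMG
    (by rw [hb]; exact one_pos)
  have hN1 : N = bt R (G.obj (𝟙_ C)) := hiff.2 (Thick.unit hir)
  have e1 : ∀ n, hn Λ (𝟙_ C ⊗ tp T n) (tp T n) = hn Λ (tp T n) (tp T n) := fun n =>
    hn_iso_left hRC (λ_ (tp T n)) (tp T n)
  have e2 : ∀ n, hg Λ G (𝟙_ C ⊗ tp T n) (tp T n) = hg Λ G (tp T n) (tp T n) := fun n =>
    (Linear.homCongr Λ (G.mapIso (λ_ (tp T n))) (Iso.refl (G.obj (tp T n)))).finrank_eq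
  refine ⟨κ, hκ, ?_, ?_, hfull⟩
  · rw [hN1, hb, Nat.cast_one, div_one, one_mul] at hL
    exact hL.congr fun n => by rw [e1, e2]
  · exact hev.mono fun n h => by rw [e2] at h; exact h

theorem half_gap (hR : IsReal Λ R) (hD : ∀ {X Y : D} (f : X ⟶ Y), NumTriv f → f = 0)
    (hU : ∀ c : 𝟙_ C ⟶ 𝟙_ C, ∃ q : Λ, c = q • 𝟙 _) (hG : ∀ {X Y : C} (f : X ⟶ Y),
      G.map f = 0 → f = 0) {T : C} (hT : (compR G R).CPlus T)
    {i : 𝟙_ C ⟶ T} {r : T ⟶ 𝟙_ C} (hir : i ≫ r = 𝟙 (𝟙_ C)) :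
    (∃ δ : ℝ, 0 < δ ∧ ∃ᶠ n : ℕ in atTop,
      (1 / 2 + δ) * hg Λ G (tp T n) (tp T n) ≤ hn Λ (tp T n) (tp T n)) ↔
      ∀ {X Y : C}, Thick T X → Thick T Y → ∀ ψ : G.obj X ⟶ G.obj Y,
        ∃ f : X ⟶ Y, G.map f = ψ := by
  obtain ⟨κ, hκ, hL, hev, hfull⟩ := half G hR hD hU hG hT hir
  have hκ1 : κ = 1 ∨ κ ≤ 1 / 2 := by
    rcases hκ with h | ⟨k, hk, h⟩
    · right
      rw [h]
      norm_num
    · rcases Nat.lt_or_ge 1 k with hk1 | hk1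
      · right
        rw [h]
        have h2 : (2 : ℝ) ≤ k := by exact_mod_cast hk1
        rw [div_le_div_iff₀ (by linarith) (by norm_num)]
        linarith
      · left
        have : k = 1 := by omega
        rw [h, this]
        norm_num
  rw [← hfull]
  constructor
  · rintro ⟨δ, hδ, hfr⟩
    rcases hκ1 with h | h
    · exact h
    · exfalso
      have h1 : ∀ᶠ n : ℕ in atTop, (hn Λ (tp T n) (tp T n) : ℝ) /
          hg Λ G (tp T n) (tp T n) < 1 / 2 + δ := hL.eventually_lt_const (by linarith)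
      obtain ⟨n, hn1, hn2, hn3⟩ := (hfr.and_eventually (h1.and hev)).exists
      have h4 : (0 : ℝ) < hg Λ G (tp T n) (tp T n) := by exact_mod_cast hn3
      rw [div_lt_iff₀ h4] at hn2
      linarith
  · intro hk
    rw [hk] at hL
    refine ⟨1 / 4, by norm_num, ?_⟩
    have h1 : ∀ᶠ n : ℕ in atTop, (1 / 2 + 1 / 4 : ℝ) <
        (hn Λ (tp T n) (tp T n) : ℝ) / hg Λ G (tp T n) (tp T n) :=
      hL.eventually_const_lt (by norm_num)
    refine (h1.and hev).frequently.mono ?_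
    rintro n ⟨hn1, hn2⟩
    have h4 : (0 : ℝ) < hg Λ G (tp T n) (tp T n) := by exact_mod_cast hn2
    rw [lt_div_iff₀ h4] at hn1
    exact hn1.le

/-- The cokernel on the powers of `T ⊗ T^∨`. -/
lemma coker_add (hR : IsReal Λ R) (hD : ∀ {X Y : D} (f : X ⟶ Y), NumTriv f → f = 0)
    (hU : ∀ c : 𝟙_ C ⟶ 𝟙_ C, ∃ q : Λ, c = q • 𝟙 _) (T : C) (n : ℕ) :
    cokerDim (natG Λ G (𝟙_ C)) (tp (T ⊗ Tᘁ) n) + numRank Λ (tp (T ⊗ Tᘁ) n) ≤
      (hg Λ G (tp T n) (tp T n) : ℕ) := by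
  have hfin : Module.Finite Λ ((G ⋙ homF Λ (G.obj (𝟙_ C))).obj (tp (T ⊗ Tᘁ) n)) :=
    finD hR hD (G.obj (𝟙_ C)) (G.obj (tp (T ⊗ Tᘁ) n))
  set S := LinearMap.range ((natG Λ G (𝟙_ C)).app (tp (T ⊗ Tᘁ) n)).hom with hS
  have h1 : cokerDim (natG Λ G (𝟙_ C)) (tp (T ⊗ Tᘁ) n) =
      (finrank Λ ((G ⋙ homF Λ (G.obj (𝟙_ C))).obj (tp (T ⊗ Tᘁ) n) ⧸ S) : ℕ∞) := by
    unfold cokerDim
    rw [dimE_eq]
  have h2 := Submodule.finrank_quotient_add_finrank S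
  have h3 : numRank Λ (tp (T ⊗ Tᘁ) n) ≤ finrank Λ S := by
    refine fin_aux ((natG Λ G (𝟙_ C)).app (tp (T ⊗ Tᘁ) n)).hom
      (numIdeal Λ (𝟙_ C) (tp (T ⊗ Tᘁ) n)) ?_
    intro a ha
    exact numTriv_of_map_zero G hR hU (f := a) ha
  have h4 : hg Λ G (tp T n) (tp T n) =
      finrank Λ ((G ⋙ homF Λ (G.obj (𝟙_ C))).obj (tp (T ⊗ Tᘁ) n)) := by
    rw [← hg_unit]
    rfl
  rw [h1, h4, ← h2]
  push_cast
  gcongr

/-- One explicit power decides. -/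
theorem half_explicit (hR : IsReal Λ R) (hD : ∀ {X Y : D} (f : X ⟶ Y), NumTriv f → f = 0)
    (hU : ∀ c : 𝟙_ C ⟶ 𝟙_ C, ∃ q : Λ, c = q • 𝟙 _) {T : C} (hT : (compR G R).CPlus T)
    (hb : 0 < bt (compR G R) T) (m n : ℕ)
    (hn' : 128 * (m + 1) ^ 2 * bt R (G.obj T) ^ (4 * m + 12) ≤ n)
    (h : 2 * hg Λ G (tp T n) (tp T n) < 3 * hn Λ (tp T n) (tp T n))
    (φ : G.obj (tp T m) ⟶ G.obj (tp T m)) : ∃ f, G.map f = φ := by
  have hRC := isReal_comp G hR hU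
  obtain ⟨hEP, hIP⟩ := isPow_tensor_dual hRC hT hb
  obtain ⟨N₁, N₂, -, -, -, -, hex⟩ := natural_law hIP (homF Λ (𝟙_ C))
    (G ⋙ homF Λ (G.obj (𝟙_ C))) (natG Λ G (𝟙_ C))
  have hbt : bt (compR G R) (T ⊗ Tᘁ) = bt R (G.obj T) ^ 2 := by
    rw [bt_tensor, bt_dual, pow_two]
    rfl
  have h1 : 128 * (m + 1) ^ 2 * bt (compR G R) (T ⊗ Tᘁ) ^ (2 * m + 6) ≤ n := by
    rw [hbt, ← pow_mul]
    refine le_trans (le_of_eq ?_) hn'
    congr 2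
    ring
  have hββ : hn Λ (tp T n) (tp T n) = numRank Λ (tp (T ⊗ Tᘁ) n) := by
    rw [hn_eq, numRank_tensor_dual hRC]
  have h2 : 2 * cokerDim (natG Λ G (𝟙_ C)) (tp (T ⊗ Tᘁ) n) < numRank Λ (tp (T ⊗ Tᘁ) n) := by
    have h3 := coker_add G hR hD hU T n
    have hfin : Module.Finite Λ ((G ⋙ homF Λ (G.obj (𝟙_ C))).obj (tp (T ⊗ Tᘁ) n)) :=
      finD hR hD (G.obj (𝟙_ C)) (G.obj (tp (T ⊗ Tᘁ) n))
    have h4 : cokerDim (natG Λ G (𝟙_ C)) (tp (T ⊗ Tᘁ) n) =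
        (finrank Λ ((G ⋙ homF Λ (G.obj (𝟙_ C))).obj (tp (T ⊗ Tᘁ) n) ⧸
          LinearMap.range ((natG Λ G (𝟙_ C)).app (tp (T ⊗ Tᘁ) n)).hom) : ℕ∞) := by
      unfold cokerDim
      rw [dimE_eq]
    rw [h4] at h3 ⊢
    rw [hββ] at h
    have h5 : finrank Λ ((G ⋙ homF Λ (G.obj (𝟙_ C))).obj (tp (T ⊗ Tᘁ) n) ⧸
          LinearMap.range ((natG Λ G (𝟙_ C)).app (tp (T ⊗ Tᘁ) n)).hom) +
          numRank Λ (tp (T ⊗ Tᘁ) n) ≤ hg Λ G (tp T n) (tp T n) := by exact_mod_cast h3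
    have h6 : 2 * finrank Λ ((G ⋙ homF Λ (G.obj (𝟙_ C))).obj (tp (T ⊗ Tᘁ) n) ⧸
          LinearMap.range ((natG Λ G (𝟙_ C)).app (tp (T ⊗ Tᘁ) n)).hom) <
          numRank Λ (tp (T ⊗ Tᘁ) n) := by omega
    exact_mod_cast h6
  have hsurj := (hex m n h1).2 h2
  let _ := Pool.Agent.N413.AFW.pairTp T Tᘁ m
  let e := Pool.Agent.N413.AFW.isoTp T Tᘁ m
  obtain ⟨f, hf⟩ := full_adj G (𝟙_ C) (tp T m) (Pool.Agent.N413.AFW.dp Tᘁ m) (tp T m)
    (fun ψ => by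
      obtain ⟨a, ha⟩ := hsurj (ψ ≫ G.map e.inv)
      let a' : 𝟙_ C ⟶ tp (T ⊗ Tᘁ) m := a
      have ha' : G.map a' = ψ ≫ G.map e.inv := ha
      refine ⟨a' ≫ e.hom, ?_⟩
      rw [G.map_comp, ha', Category.assoc, ← G.map_comp, Iso.inv_hom_id, G.map_id,
        Category.comp_id]) (G.map (λ_ (tp T m)).hom ≫ φ)
  refine ⟨(λ_ (tp T m)).inv ≫ f, ?_⟩
  rw [G.map_comp, hf, ← Category.assoc, ← G.map_comp, Iso.inv_hom_id, G.map_id,
    Category.id_comp]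

end Pool.Agent.V8H87.AB
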