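import Pool.Agent.V8H87.AB.Comp

/-!
# Tensor functors: morphisms between the images, and fullness
-/

set_option autoImplicit false
set_option linter.unusedSectionVars false

open CategoryTheory Limits MonoidalCategory Module Filter Topology
open Pool.Agent.Y112.SR Pool.Agent.Y112.KD Pool.Agent.N64.AF
open Pool.Agent.Y116.MT (tr)

namespace Pool.Agent.V8H87.AB

universe v u u' w t

/-! ### a category in which numerically trivial morphisms are zero -/

section D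

variable {D : Type u'} [Category.{v} D] [Preadditive D] [MonoidalCategory D]
  [MonoidalPreadditive D] [SymmetricCategory D] [RightRigidCategory D]
  {Λ : Type t} [Field Λ] [CharZero Λ] [Linear Λ D] [MonoidalLinear Λ D]
  {K : Type w} [Field K] [Algebra Λ K] {R : SuperRealisation D K}

lemma numIdeal_bot (hD : ∀ {X Y : D} (f : X ⟶ Y), NumTriv f → f = 0) (X Y : D) :
    numIdeal Λ X Y = ⊥ := by
  rw [eq_bot_iff]
  intro f hf
  exact hD f hf

lemma finD (hR : IsReal Λ R) (hD : ∀ {X Y : D} (f : X ⟶ Y), NumTriv f → f = 0) (X Y : D) :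
    Module.Finite Λ (X ⟶ Y) := by
  have h1 := finite_num hR X Y
  rw [numIdeal_bot hD] at h1
  exact Module.Finite.equiv (Submodule.quotEquivOfEqBot (⊥ : Submodule Λ (X ⟶ Y)) rfl)

lemma hnD (hD : ∀ {X Y : D} (f : X ⟶ Y), NumTriv f → f = 0) (X Y : D) :
    hn Λ X Y = finrank Λ (X ⟶ Y) := by
  unfold hn
  exact (Submodule.quotEquivOfEqBot (numIdeal Λ X Y) (numIdeal_bot hD X Y)).finrank_eq

lemma faithD (hR : IsReal Λ R) (hD : ∀ {X Y : D} (f : X ⟶ Y), NumTriv f → f = 0) {X Y : D}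
    (f : X ⟶ Y) (h : R.H.map f = 0) : f = 0 := by
  apply hD
  intro g
  rw [tr_eq_zero_iff hR, R.H.map_comp, h, zero_comp, zero_comp, ModuleCat.hom_zero, map_zero]

/-- the adjunction as a linear equivalence -/
noncomputable def adjL (Λ : Type t) [Field Λ] [Linear Λ D] [MonoidalLinear Λ D] (X Q Q' Z : D)
    [ExactPairing Q Q'] : (X ⊗ Q ⟶ Z) ≃ₗ[Λ] (X ⟶ Z ⊗ Q') :=
  { tensorRightHomEquiv X Q Q' Z with
    map_add' := fun a b => by
      simp only [tensorRightHomEquiv, Equiv.toFun_as_coe, Equiv.coe_fn_mk,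
        MonoidalPreadditive.add_whiskerRight, Preadditive.comp_add]
    map_smul' := fun a b => by
      simp only [tensorRightHomEquiv, Equiv.toFun_as_coe, Equiv.coe_fn_mk,
        MonoidalLinear.smul_whiskerRight, Linear.comp_smul, RingHom.id_apply] }

end D

/-! ### tensor functors -/

section G

variable {C : Type u} [Category.{v} C] [Preadditive C] [MonoidalCategory C]
  [MonoidalPreadditive C] [SymmetricCategory C] [RightRigidCategory C]
  {D : Type u'} [Category.{v} D] [Preadditive D] [MonoidalCategory D]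
  [MonoidalPreadditive D] [SymmetricCategory D] [RightRigidCategory D]
  (G : C ⥤ D)

open Functor.LaxMonoidal Functor.OplaxMonoidal Functor.Monoidal in
/-- The adjunction and the functor. -/
lemma map_adj [G.Monoidal] (X Q Q' Z : C) [ExactPairing Q Q'] (f : X ⟶ Z ⊗ Q') :
    letI := mapPairing G Q Q'
    G.map ((tensorRightHomEquiv X Q Q' Z).symm f) =
      δ G X Q ≫ (tensorRightHomEquiv (G.obj X) (G.obj Q) (G.obj Q') (G.obj Z)).symm
        (G.map f ≫ δ G Z Q') := by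
  let _ := mapPairing G Q Q'
  have e1 : (tensorRightHomEquiv X Q Q' Z).symm f =
      f ▷ Q ≫ (α_ Z Q' Q).hom ≫ Z ◁ ε_ Q Q' ≫ (ρ_ Z).hom := rfl
  have e2 : (tensorRightHomEquiv (G.obj X) (G.obj Q) (G.obj Q') (G.obj Z)).symm
      (G.map f ≫ δ G Z Q') = (G.map f ≫ δ G Z Q') ▷ G.obj Q ≫
        (α_ (G.obj Z) (G.obj Q') (G.obj Q)).hom ≫
        G.obj Z ◁ (μ G Q' Q ≫ G.map (ε_ Q Q') ≫ η G) ≫ (ρ_ (G.obj Z)).hom := rfl
  rw [e1, e2]
  simp only [Functor.map_comp, map_whiskerLeft, map_whiskerRight, map_associator,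
    map_rightUnitor, Category.assoc, μ_δ_assoc, comp_whiskerRight,
    MonoidalCategory.whiskerLeft_comp]

open Functor.LaxMonoidal Functor.OplaxMonoidal Functor.Monoidal in
/-- Fullness passes through the adjunction. -/
lemma full_adj [G.Monoidal] (X Q Q' Z : C) [ExactPairing Q Q']
    (h : ∀ ψ : G.obj X ⟶ G.obj (Z ⊗ Q'), ∃ f, G.map f = ψ) (φ : G.obj (X ⊗ Q) ⟶ G.obj Z) :
    ∃ f, G.map f = φ := by
  let _ := mapPairing G Q Q'
  obtain ⟨f, hf⟩ := h ((tensorRightHomEquiv (G.obj X) (G.obj Q) (G.obj Q') (G.obj Z))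
    (μ G X Q ≫ φ) ≫ μ G Z Q')
  refine ⟨(tensorRightHomEquiv X Q Q' Z).symm f, ?_⟩
  rw [map_adj, hf, Category.assoc, μ_δ, Category.comp_id, Equiv.symm_apply_apply, δ_μ_assoc]

/-- Fullness on the powers of a self-dual object. -/
lemma full_tp [G.Monoidal] (U : C) [ExactPairing U U]
    (h : ∀ (n : ℕ) (ψ : G.obj (𝟙_ C) ⟶ G.obj (tp U n)), ∃ f, G.map f = ψ) (m : ℕ) :
    ∀ (n : ℕ) (ψ : G.obj (tp U m) ⟶ G.obj (tp U n)), ∃ f, G.map f = ψ := by
  induction m with
  | zero => exact h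
  | succ m ih => exact fun n ψ => full_adj G (tp U m) U U (tp U n) (ih (n + 1)) ψ

lemma full_fac [G.Additive] {U : C}
    (h : ∀ (m n : ℕ) (ψ : G.obj (tp U m) ⟶ G.obj (tp U n)), ∃ f, G.map f = ψ) {X Y : C}
    (hX : Fac U (𝟙 X)) (hY : Fac U (𝟙 Y)) (ψ : G.obj X ⟶ G.obj Y) : ∃ f, G.map f = ψ := by
  have h1 : ∀ (m : ℕ) (y : Y ⟶ Y), Fac U y → ∀ ψ : G.obj (tp U m) ⟶ G.obj Y,
      ∃ f, G.map f = ψ ≫ G.map y := by
    intro m y hy
    refine hy.induction (p := fun y => ∀ ψ : G.obj (tp U m) ⟶ G.obj Y,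
      ∃ f, G.map f = ψ ≫ G.map y) (fun n f g ψ => ?_) (fun ψ => ?_)
      (fun a b ha hb ψ => ?_) (fun a ha ψ => ?_)
    · obtain ⟨f', hf'⟩ := h m n (ψ ≫ G.map f)
      exact ⟨f' ≫ g, by rw [G.map_comp, G.map_comp, hf', Category.assoc]⟩
    · exact ⟨0, by rw [G.map_zero, G.map_zero, comp_zero]⟩
    · obtain ⟨f1, h1⟩ := ha ψ
      obtain ⟨f2, h2⟩ := hb ψ
      exact ⟨f1 + f2, by rw [G.map_add, G.map_add, Preadditive.comp_add, h1, h2]⟩
    · obtain ⟨f1, h1⟩ := ha ψ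
      exact ⟨-f1, by rw [G.map_neg, G.map_neg, Preadditive.comp_neg, h1]⟩
  have h2 : ∀ (x : X ⟶ X), Fac U x → ∃ f, G.map f = G.map x ≫ ψ := by
    intro x hx
    refine hx.induction (p := fun x => ∃ f, G.map f = G.map x ≫ ψ) (fun n f g => ?_) ?_
      (fun a b ha hb => ?_) (fun a ha => ?_)
    · obtain ⟨f', hf'⟩ := h1 n (𝟙 Y) hY (G.map g ≫ ψ)
      rw [G.map_id, Category.comp_id] at hf'
      exact ⟨f ≫ f', by rw [G.map_comp, G.map_comp, hf', Category.assoc]⟩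
    · exact ⟨0, by rw [G.map_zero, G.map_zero, zero_comp]⟩
    · obtain ⟨f1, h1⟩ := ha
      obtain ⟨f2, h2⟩ := hb
      exact ⟨f1 + f2, by rw [G.map_add, G.map_add, Preadditive.add_comp, h1, h2]⟩
    · obtain ⟨f1, h1⟩ := ha
      exact ⟨-f1, by rw [G.map_neg, G.map_neg, Preadditive.neg_comp, h1]⟩
  obtain ⟨f, hf⟩ := h2 (𝟙 X) hX
  exact ⟨f, by rw [hf, G.map_id, Category.id_comp]⟩

end G

end Pool.Agent.V8H87.AB
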