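import Pool.Agent.V8H87.AB.Hodge1

/-!
# The proportion of the morphisms which come from a subcategory
-/

set_option autoImplicit false
set_option linter.unusedSectionVars false

open CategoryTheory Limits MonoidalCategory Module Filter Topology
open Pool.Agent.Y112.SR Pool.Agent.Y112.KD Pool.Agent.N64.AF
open Pool.Agent.Y116.MT (tr)
open scoped ENNReal

namespace Pool.Agent.V8H87.AB

universe v u u' w t

variable {C : Type u} [Category.{v} C] [Preadditive C] [MonoidalCategory C]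
  [MonoidalPreadditive C] [SymmetricCategory C] [RightRigidCategory C]
  {D : Type u'} [Category.{v} D] [Preadditive D] [MonoidalCategory D]
  [MonoidalPreadditive D] [SymmetricCategory D] [RightRigidCategory D]
  {Λ : Type t} [Field Λ] [CharZero Λ] [Linear Λ C] [MonoidalLinear Λ C]
  [Linear Λ D] [MonoidalLinear Λ D]
  {K : Type w} [Field K] [Algebra Λ K]

/-- The dimension of the space of the morphisms from `G P` to `G Q`. -/
noncomputable def hg (Λ : Type t) [Field Λ] [Linear Λ D] (G : C ⥤ D) (P Q : C) : ℕ :=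
  finrank Λ (G.obj P ⟶ G.obj Q)

section

variable {R : SuperRealisation D K} (G : C ⥤ D) [G.Braided]

lemma hg_tp (hD : ∀ {X Y : D} (f : X ⟶ Y), NumTriv f → f = 0) (T P : C) (n : ℕ) :
    hg Λ G (P ⊗ tp T n) (tp T n) = hn Λ (G.obj P ⊗ tp (G.obj T) n) (tp (G.obj T) n) := by
  rw [hnD hD, hg]
  exact (Linear.homCongr Λ ((Functor.Monoidal.μIso G P (tp T n)).symm ≪≫
    whiskerLeftIso (G.obj P) (tpIso G T n)) (tpIso G T n)).finrank_eq

lemma hg_self (hD : ∀ {X Y : D} (f : X ⟶ Y), NumTriv f → f = 0) (T : C) (n : ℕ) :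
    hg Λ G (tp T n) (tp T n) = hn Λ (tp (G.obj T) n) (tp (G.obj T) n) := by
  rw [hnD hD, hg]
  exact (Linear.homCongr Λ (tpIso G T n) (tpIso G T n)).finrank_eq

lemma hg_unit (T : C) (n : ℕ) :
    hg Λ G (𝟙_ C) (tp (T ⊗ Tᘁ) n) = hg Λ G (tp T n) (tp T n) := by
  let _ := Pool.Agent.N413.AFW.pairTp T Tᘁ n
  let _ := mapPairing G (tp T n) (Pool.Agent.N413.AFW.dp Tᘁ n)
  let i1 : G.obj (tp (T ⊗ Tᘁ) n) ≅ G.obj (tp T n) ⊗ G.obj (Pool.Agent.N413.AFW.dp Tᘁ n) :=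
    G.mapIso (Pool.Agent.N413.AFW.isoTp T Tᘁ n) ≪≫
      (Functor.Monoidal.μIso G (tp T n) (Pool.Agent.N413.AFW.dp Tᘁ n)).symm
  let i2 : G.obj (𝟙_ C) ⊗ G.obj (tp T n) ≅ G.obj (tp T n) :=
    Functor.Monoidal.μIso G (𝟙_ C) (tp T n) ≪≫ G.mapIso (λ_ (tp T n))
  rw [hg, hg]
  exact ((Linear.homCongr Λ (Iso.refl (G.obj (𝟙_ C))) i1).trans
    ((adjL Λ (G.obj (𝟙_ C)) (G.obj (tp T n)) (G.obj (Pool.Agent.N413.AFW.dp Tᘁ n))
      (G.obj (tp T n))).symm.trans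
      (Linear.homCongr Λ i2 (Iso.refl (G.obj (tp T n)))))).finrank_eq

end

/-- the rank of a quotient by a larger subspace -/
lemma fin_aux {V W : Type*} [AddCommGroup V] [Module Λ V] [AddCommGroup W] [Module Λ W]
    [Module.Finite Λ W] (φ : V →ₗ[Λ] W) (N : Submodule Λ V) (h : LinearMap.ker φ ≤ N) :
    finrank Λ (V ⧸ N) ≤ finrank Λ (LinearMap.range φ) := by
  obtain ⟨g, hg⟩ : ∃ g : LinearMap.range φ →ₗ[Λ] (V ⧸ N), g ∘ₗ φ.rangeRestrict = N.mkQ := by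
    have hfs : Function.Surjective φ.rangeRestrict := LinearMap.surjective_rangeRestrict _
    have hker : LinearMap.ker φ.rangeRestrict ≤ LinearMap.ker N.mkQ := by
      rw [LinearMap.ker_rangeRestrict, Submodule.ker_mkQ]
      exact h
    refine ⟨(Submodule.liftQ (LinearMap.ker φ.rangeRestrict) N.mkQ hker) ∘ₗ
      (LinearMap.quotKerEquivOfSurjective φ.rangeRestrict hfs).symm.toLinearMap, ?_⟩
    ext a
    have h5 : (LinearMap.quotKerEquivOfSurjective φ.rangeRestrict hfs).symm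
        (φ.rangeRestrict a) = Submodule.Quotient.mk a := by
      rw [LinearEquiv.symm_apply_eq]
      rfl
    simp only [LinearMap.comp_apply, LinearEquiv.coe_coe, h5, Submodule.liftQ_apply]
  have hgs : Function.Surjective g := by
    intro y
    obtain ⟨a, rfl⟩ := Submodule.mkQ_surjective _ y
    exact ⟨φ.rangeRestrict a, LinearMap.congr_fun hg a⟩
  exact LinearMap.finrank_le_finrank_of_surjective hgs

section nat

variable (Λ) (G : C ⥤ D) [G.Additive] [G.Linear Λ]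

/-- the functor on morphisms as a natural transformation -/
noncomputable def natG (W : C) : homF Λ W ⟶ G ⋙ homF Λ (G.obj W) where
  app Z := ModuleCat.ofHom
    { toFun := fun a : (W ⟶ Z) => (G.map a : G.obj W ⟶ G.obj Z)
      map_add' := fun a b => G.map_add
      map_smul' := fun c a => G.map_smul c a }
  naturality {Y Z} f := by
    ext a
    change G.map (a ≫ f) = G.map a ≫ G.map f
    exact G.map_comp a f

lemma natG_apply (W Z : C) (a : W ⟶ Z) : ((natG Λ G W).app Z).hom a = G.map a := rfl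

instance : (G ⋙ homF Λ (G.obj (𝟙_ C))).Linear Λ where
  map_smul {Y Z} f c := by
    ext a
    have h1 : G.map (c • f) = c • G.map f := G.map_smul c f
    have h2 : ∀ a : G.obj (𝟙_ C) ⟶ G.obj Y, a ≫ G.map (c • f) = c • (a ≫ G.map f) := by
      intro a
      rw [h1, Linear.comp_smul]
    exact h2 a

end nat

variable [IsAlgClosed K] {R : SuperRealisation D K} (G : C ⥤ D) [G.Additive] [G.Linear Λ]
  [G.Braided]

lemma isReal_comp (hR : IsReal Λ R) (hU : ∀ c : 𝟙_ C ⟶ 𝟙_ C, ∃ q : Λ, c = q • 𝟙 _) :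
    IsReal Λ (compR G R) where
  unit := hU
  lin {X Y} a f := by
    change R.H.map (G.map (a • f)) = algebraMap Λ K a • R.H.map (G.map f)
    rw [G.map_smul, hR.lin]

/-- numerically trivial morphisms: comparison -/
lemma numTriv_of_map_zero (hR : IsReal Λ R) (hU : ∀ c : 𝟙_ C ⟶ 𝟙_ C, ∃ q : Λ, c = q • 𝟙 _)
    {X Y : C} {f : X ⟶ Y} (h : G.map f = 0) : NumTriv f := by
  intro g
  rw [tr_eq_zero_iff (isReal_comp G hR hU)]
  have h1 : (compR G R).H.map (f ≫ g) = 0 := by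
    change R.H.map (G.map (f ≫ g)) = 0
    rw [G.map_comp, h, zero_comp, R.H.map_zero]
  rw [h1, zero_comp, ModuleCat.hom_zero, map_zero]

/-- The number `k`, and fullness. -/
theorem index (hR : IsReal Λ R) (hD : ∀ {X Y : D} (f : X ⟶ Y), NumTriv f → f = 0)
    (hU : ∀ c : 𝟙_ C ⟶ 𝟙_ C, ∃ q : Λ, c = q • 𝟙 _) {T : C} (hT : (compR G R).CPlus T)
    (hb : 0 < bt (compR G R) T) :
    ∃ k : ℕ∞, k ≠ 0 ∧
      Tendsto (fun n => ((hg Λ G (tp T n) (tp T n) : ℕ) : ℝ≥0∞) / (hn Λ (tp T n) (tp T n) : ℕ))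
        atTop (𝓝 (k : ℝ≥0∞)) ∧
      (k = 1 → ∀ (n : ℕ) (ψ : G.obj (𝟙_ C) ⟶ G.obj (tp (T ⊗ Tᘁ) n)), ∃ f, G.map f = ψ) := by
  have hRC := isReal_comp G hR hU
  have hDs : ∀ Z : C, hg Λ G (𝟙_ C) Z = finrank Λ ((G ⋙ homF Λ (G.obj (𝟙_ C))).obj Z) :=
    fun _ => rfl
  have hfin : ∀ Z : C, Module.Finite Λ ((G ⋙ homF Λ (G.obj (𝟙_ C))).obj Z) :=
    fun Z => finD hR hD (G.obj (𝟙_ C)) (G.obj Z)
  obtain ⟨hEP, hIP⟩ := isPow_tensor_dual hRC hT hb
  have hββ : ∀ n, hn Λ (tp T n) (tp T n) = numRank Λ (tp (T ⊗ Tᘁ) n) := by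
    intro n
    rw [hn_eq, numRank_tensor_dual hRC]
  have hpos : ∀ n, 0 < numRank Λ (tp (T ⊗ Tᘁ) n) := fun n => (numRank_mono hIP n).1
  obtain ⟨k, hk1, hk2, -⟩ := law hIP (G ⋙ homF Λ (G.obj (𝟙_ C)))
  refine ⟨k, ?_, ?_, ?_⟩
  · intro hk0
    have h1 := hk2.1 hk0 0
    -- the identity of the image of the unit is not zero
    have h2 : (𝟙 (G.obj (𝟙_ C)) : G.obj (𝟙_ C) ⟶ G.obj (𝟙_ C)) = 0 := by
      have h3 : Subsingleton (G.obj (𝟙_ C) ⟶ G.obj (𝟙_ C)) := h1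
      exact Subsingleton.elim _ _
    have h4 : bt (compR G R) (𝟙_ C) = 1 := bt_unit _
    have h5 : (compR G R).H.map (𝟙 (𝟙_ C)) = 0 := by
      have h6 : G.map (𝟙 (𝟙_ C)) = 0 := by rw [G.map_id, h2]
      change R.H.map (G.map (𝟙 (𝟙_ C))) = 0
      rw [h6, R.H.map_zero]
    rw [CategoryTheory.Functor.map_id] at h5
    have h7 : Subsingleton ((compR G R).H.obj (𝟙_ C)) := by
      constructor
      intro a b
      have h8 := congrArg (fun z : (compR G R).H.obj (𝟙_ C) ⟶ (compR G R).H.obj (𝟙_ C) =>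
        z.hom a) h5
      have h9 := congrArg (fun z : (compR G R).H.obj (𝟙_ C) ⟶ (compR G R).H.obj (𝟙_ C) =>
        z.hom b) h5
      exact h8.trans h9.symm
    unfold bt at h4
    rw [finrank_zero_of_subsingleton] at h4
    omega
  · refine hk1.congr fun n => ?_
    have := hfin (tp (T ⊗ Tᘁ) n)
    rw [dimE_eq, ← hDs, hg_unit, hββ]
    rfl
  · intro hk n
    obtain ⟨N₁, N₂, -, hN₂, -, hsurj, -⟩ := natural_law hIP (homF Λ (𝟙_ C))
      (G ⋙ homF Λ (G.obj (𝟙_ C))) (natG Λ G (𝟙_ C))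
    -- the cokernel
    have hck : ∀ n, cokerDim (natG Λ G (𝟙_ C)) (tp (T ⊗ Tᘁ) n) + numRank Λ (tp (T ⊗ Tᘁ) n) ≤
        (hg Λ G (tp T n) (tp T n) : ℕ) := by
      intro n
      have := hfin (tp (T ⊗ Tᘁ) n)
      set S := LinearMap.range ((natG Λ G (𝟙_ C)).app (tp (T ⊗ Tᘁ) n)).hom with hS
      have h1 : cokerDim (natG Λ G (𝟙_ C)) (tp (T ⊗ Tᘁ) n) =
          (finrank Λ ((G ⋙ homF Λ (G.obj (𝟙_ C))).obj (tp (T ⊗ Tᘁ) n) ⧸ S) : ℕ∞) := by
        unfold cokerDim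
        rw [dimE_eq]
      have h2 := Submodule.finrank_quotient_add_finrank S
      have h3 : numRank Λ (tp (T ⊗ Tᘁ) n) ≤ finrank Λ S := by
        refine fin_aux ((natG Λ G (𝟙_ C)).app (tp (T ⊗ Tᘁ) n)).hom
          (numIdeal Λ (𝟙_ C) (tp (T ⊗ Tᘁ) n)) ?_
        intro a ha
        exact numTriv_of_map_zero G hR hU (f := a) ha
      have h4 : hg Λ G (tp T n) (tp T n) =
          finrank Λ ((G ⋙ homF Λ (G.obj (𝟙_ C))).obj (tp (T ⊗ Tᘁ) n)) := by
        rw [← hg_unit]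
        rfl
      rw [h1, h4, ← h2]
      push_cast
      gcongr
    have hN₂0 : N₂ = 0 := by
      -- `coker / β ≤ hg / β - 1 → 0`
      have h1 : Tendsto (fun n => ((hg Λ G (tp T n) (tp T n) : ℕ) : ℝ≥0∞) /
          (hn Λ (tp T n) (tp T n) : ℕ)) atTop (𝓝 (1 : ℝ≥0∞)) := by
        have h0 : Tendsto (fun n => ((hg Λ G (tp T n) (tp T n) : ℕ) : ℝ≥0∞) /
          (hn Λ (tp T n) (tp T n) : ℕ)) atTop (𝓝 (k : ℝ≥0∞)) := by
          refine hk1.congr fun n => ?_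
          have := hfin (tp (T ⊗ Tᘁ) n)
          rw [dimE_eq, ← hDs, hg_unit, hββ]
          rfl
        rw [hk] at h0
        exact_mod_cast h0
      have h2 : Tendsto (fun n => ((cokerDim (natG Λ G (𝟙_ C)) (tp (T ⊗ Tᘁ) n) : ℕ∞) : ℝ≥0∞) /
          numRank Λ (tp (T ⊗ Tᘁ) n) + 1) atTop (𝓝 ((N₂ : ℝ≥0∞) + 1)) :=
        Tendsto.add hN₂ tendsto_const_nhds
      have h3 : (N₂ : ℝ≥0∞) + 1 ≤ 1 := by
        refine le_of_tendsto_of_tendsto' h2 h1 fun n => ?_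
        rw [hββ n]
        have h4 : ((numRank Λ (tp (T ⊗ Tᘁ) n) : ℕ) : ℝ≥0∞) ≠ 0 :=
          Nat.cast_ne_zero.2 (hpos n).ne'
        have h5 : ((numRank Λ (tp (T ⊗ Tᘁ) n) : ℕ) : ℝ≥0∞) ≠ ⊤ := ENNReal.natCast_ne_top _
        have h6 : (1 : ℝ≥0∞) = ((numRank Λ (tp (T ⊗ Tᘁ) n) : ℕ) : ℝ≥0∞) /
            ((numRank Λ (tp (T ⊗ Tᘁ) n) : ℕ) : ℝ≥0∞) := (ENNReal.div_self h4 h5).symm
        rw [h6, ← ENNReal.add_div]
        refine ENNReal.div_le_div_right ?_ _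
        have h7 := hck n
        have h8 : (((cokerDim (natG Λ G (𝟙_ C)) (tp (T ⊗ Tᘁ) n) +
            (numRank Λ (tp (T ⊗ Tᘁ) n) : ℕ∞) : ℕ∞)) : ℝ≥0∞) ≤
            (((hg Λ G (tp T n) (tp T n) : ℕ) : ℕ∞) : ℝ≥0∞) := by
          exact_mod_cast h7
        simpa using h8
      have h4 : (N₂ : ℝ≥0∞) = 0 := by
        by_contra h5
        have h6 : (1 : ℝ≥0∞) < N₂ + 1 := by
          have : (0 : ℝ≥0∞) + 1 < N₂ + 1 :=
            ENNReal.add_lt_add_right ENNReal.one_ne_top (pos_iff_ne_zero.2 h5)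
          rwa [zero_add] at this
        exact absurd h3 (not_le.2 h6)
      exact_mod_cast h4
    intro ψ
    obtain ⟨a, ha⟩ := hsurj.1 hN₂0 n ψ
    exact ⟨a, ha⟩

end Pool.Agent.V8H87.AB
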