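import Pool.Agent.V8H87.AB.Hodge2

/-!
# The proportion of algebraic classes: the main theorem
-/

set_option autoImplicit false
set_option linter.unusedSectionVars false

open CategoryTheory Limits MonoidalCategory Module Filter Topology
open Pool.Agent.Y112.SR Pool.Agent.Y112.KD Pool.Agent.N64.AF
open Pool.Agent.Y116.MT (tr)
open scoped ENNReal

namespace Pool.Agent.V8H87.AB

universe v u u' w t

/-- a quotient of limits -/
lemma tendsto_aux {a h a1 h1 : ℕ → ℕ} {N b : ℕ} {k : ℕ∞} (hk : k ≠ 0) (hb : 0 < b)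
    (ha1 : ∀ n, 0 < a1 n)
    (ha : Tendsto (fun n => (a n : ℝ) / a1 n) atTop (𝓝 (N : ℝ)))
    (hh : Tendsto (fun n => (h n : ℝ) / h1 n) atTop (𝓝 (b : ℝ)))
    (hh1 : Tendsto (fun n => ((h1 n : ℕ) : ℝ≥0∞) / (a1 n : ℕ)) atTop (𝓝 (k : ℝ≥0∞))) :
    Tendsto (fun n => (a n : ℝ) / h n) atTop (𝓝 ((N : ℝ) / b * ((k : ℝ≥0∞)⁻¹).toReal)) ∧
      ∀ᶠ n in atTop, 0 < h n := by
  have hb' : (0 : ℝ) < b := by exact_mod_cast hb
  have h2 : Tendsto (fun n => ((((h1 n : ℕ) : ℝ≥0∞) / (a1 n : ℕ))⁻¹).toReal) atTop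
      (𝓝 (((k : ℝ≥0∞)⁻¹).toReal)) := by
    have h3 := (continuous_inv.tendsto (k : ℝ≥0∞)).comp hh1
    refine (ENNReal.tendsto_toReal ?_).comp h3
    rw [Ne, ENNReal.inv_eq_top]
    exact_mod_cast hk
  have hev : ∀ᶠ n in atTop, 0 < (h n : ℝ) / h1 n := hh.eventually_const_lt hb'
  have hev2 : ∀ᶠ n in atTop, 0 < h n ∧ 0 < h1 n := by
    filter_upwards [hev] with n hn
    constructor
    · by_contra h0
      have : h n = 0 := by omega
      rw [this, Nat.cast_zero, zero_div] at hn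
      exact lt_irrefl _ hn
    · by_contra h0
      have : h1 n = 0 := by omega
      rw [this, Nat.cast_zero, div_zero] at hn
      exact lt_irrefl _ hn
  refine ⟨?_, hev2.mono fun n hn => hn.1⟩
  have h4 := (ha.mul h2).div hh hb'.ne'
  have e1 : (N : ℝ) * ((k : ℝ≥0∞)⁻¹).toReal / b = (N : ℝ) / b * ((k : ℝ≥0∞)⁻¹).toReal := by ring
  rw [e1] at h4
  refine h4.congr' ?_
  filter_upwards [hev2] with n hn
  have p1 : (0 : ℝ) < h n := by exact_mod_cast hn.1
  have p2 : (0 : ℝ) < h1 n := by exact_mod_cast hn.2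
  have p3 : (0 : ℝ) < a1 n := by exact_mod_cast ha1 n
  have e2 : ((((h1 n : ℕ) : ℝ≥0∞) / (a1 n : ℕ))⁻¹).toReal = (a1 n : ℝ) / h1 n := by
    rw [ENNReal.toReal_inv, ENNReal.toReal_div, ENNReal.toReal_natCast, ENNReal.toReal_natCast,
      inv_div]
  change (a n : ℝ) / a1 n * ((((h1 n : ℕ) : ℝ≥0∞) / (a1 n : ℕ))⁻¹).toReal / ((h n : ℝ) / h1 n) =
    (a n : ℝ) / h n
  rw [e2]
  field_simp

/-- the possible values of the inverse -/
lemma inv_cases {k : ℕ∞} (hk : k ≠ 0) :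
    (((k : ℝ≥0∞)⁻¹).toReal = 0 ∨ ∃ m : ℕ, 1 ≤ m ∧ ((k : ℝ≥0∞)⁻¹).toReal = 1 / m) ∧
      (((k : ℝ≥0∞)⁻¹).toReal = 1 → k = 1) ∧
      (k ≠ 1 → ((k : ℝ≥0∞)⁻¹).toReal ≤ 1 / 2) := by
  induction k using ENat.recTopCoe with
  | top =>
    have h1 : (((⊤ : ℕ∞) : ℝ≥0∞)⁻¹).toReal = 0 := by simp
    rw [h1]
    refine ⟨Or.inl rfl, fun h => absurd h (by norm_num), fun _ => by norm_num⟩
  | coe m =>
    have hm : m ≠ 0 := by exact_mod_cast hk
    have h1 : ((((m : ℕ) : ℕ∞) : ℝ≥0∞)⁻¹).toReal = 1 / m := by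
      rw [ENat.toENNReal_coe, ENNReal.toReal_inv, ENNReal.toReal_natCast, one_div]
    rw [h1]
    have hm' : (0 : ℝ) < m := by exact_mod_cast Nat.pos_of_ne_zero hm
    refine ⟨Or.inr ⟨m, Nat.pos_of_ne_zero hm, rfl⟩, fun h => ?_, fun h => ?_⟩
    · rw [div_eq_one_iff_eq hm'.ne'] at h
      have h2 : m = 1 := by exact_mod_cast h.symm
      rw [h2]
      rfl
    · have h2 : m ≠ 1 := by
        rintro rfl
        exact h rfl
      have h3 : (2 : ℝ) ≤ m := by
        have : 2 ≤ m := by omega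
        exact_mod_cast this
      rw [div_le_div_iff₀ hm' (by norm_num)]
      linarith

variable {C : Type u} [Category.{v} C] [Preadditive C] [MonoidalCategory C]
  [MonoidalPreadditive C] [SymmetricCategory C] [RightRigidCategory C] [HasBinaryBiproducts C]
  {D : Type u'} [Category.{v} D] [Preadditive D] [MonoidalCategory D]
  [MonoidalPreadditive D] [SymmetricCategory D] [RightRigidCategory D] [HasBinaryBiproducts D]
  {Λ : Type t} [Field Λ] [CharZero Λ] [Linear Λ C] [MonoidalLinear Λ C]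
  [Linear Λ D] [MonoidalLinear Λ D]
  {K : Type w} [Field K] [IsAlgClosed K] [Algebra Λ K]
  {R : SuperRealisation D K} (G : C ⥤ D) [G.Additive] [G.Linear Λ] [G.Braided]

/-- The main theorem on the proportion of algebraic classes. -/
theorem hodge (hR : IsReal Λ R) (hD : ∀ {X Y : D} (f : X ⟶ Y), NumTriv f → f = 0)
    (hU : ∀ c : 𝟙_ C ⟶ 𝟙_ C, ∃ q : Λ, c = q • 𝟙 _) (hG : ∀ {X Y : C} (f : X ⟶ Y),
      G.map f = 0 → f = 0) {T : C} (hT : (compR G R).CPlus T)
    {i : 𝟙_ C ⟶ T} {r : T ⟶ 𝟙_ C} (hir : i ≫ r = 𝟙 (𝟙_ C)) (M : C)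
    (hM : Thick (G.obj T) (G.obj M)) (hb : 0 < bt R (G.obj M)) :
    ∃ (N : ℕ) (κ : ℝ), N ≤ bt R (G.obj M) ∧ (κ = 0 ∨ ∃ k : ℕ, 1 ≤ k ∧ κ = 1 / k) ∧
      Tendsto (fun n : ℕ => (hn Λ (M ⊗ tp T n) (tp T n) : ℝ) / hg Λ G (M ⊗ tp T n) (tp T n))
        atTop (𝓝 ((N : ℝ) / bt R (G.obj M) * κ)) ∧
      (∀ᶠ n : ℕ in atTop, 0 < hg Λ G (M ⊗ tp T n) (tp T n)) ∧
      (N = bt R (G.obj M) ↔ Thick T M) ∧
      (κ = 1 ↔ ∀ {X Y : C}, Thick T X → Thick T Y → ∀ ψ : G.obj X ⟶ G.obj Y,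
        ∃ f : X ⟶ Y, G.map f = ψ) := by
  have hRC := isReal_comp G hR hU
  have hf : ∀ {X Y : C} (f : X ⟶ Y), (compR G R).H.map f = 0 → f = 0 := by
    intro X Y f h
    exact hG f (faithD hR hD (G.map f) h)
  have hbT : 0 < bt (compR G R) T := bt_pos (Λ := Λ) ⟨hRC, hT, i, r, hir⟩
  have hN : ∀ m : ℕ, NilEnd (tp (T ⊗ Tᘁ) m) := fun m => nilEnd_of_faithful hRC hf
    (cplus_tp hRC (cplus_tensor hRC hT (cplus_dual hRC hT)) m)
  obtain ⟨p, N, hpp, hNr, hle, hfac, hup, hlim, hM1, hM2⟩ := main_nil hRC hT hN hir M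
  have hiff : N = bt R (G.obj M) ↔ Thick T M := by
    constructor
    · intro h
      have h1 := hM2.1 h
      -- use the criterion of the faithful case
      have h0 := (compR G R).finite M
      obtain ⟨Z, hZ, f, g, hfg⟩ := hfac
      have hK : CharZero K := charZero_of_injective_algebraMap (algebraMap Λ K).injective
      have h2 := (rk_le (R := compR G R) hpp hNr).2
      have h3 : LinearMap.range ((compR G R).H.map p).hom = ⊤ := by
        apply Submodule.eq_top_of_finrank_eq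
        rw [h2, h]
        rfl
      have h4 : (compR G R).H.map p = 𝟙 _ := by
        apply ModuleCat.hom_ext
        ext x
        obtain ⟨y, rfl⟩ := LinearMap.range_eq_top.1 h3 x
        have h5 := congrArg (fun z => ((compR G R).H.map z).hom y) hpp
        simp only [(compR G R).H.map_comp, ModuleCat.hom_comp, LinearMap.comp_apply] at h5
        exact h5
      have h5 : p = 𝟙 M := by
        rw [← sub_eq_zero]
        apply hf
        rw [(compR G R).H.map_sub, h4, (compR G R).H.map_id, sub_self]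
      exact hZ.summand f g (by rw [← hfg, h5])
    · exact hM1
  -- the category `D`
  have hTD : R.CPlus (G.obj T) := by
    obtain ⟨f, hf⟩ := hT
    exact ⟨G.map f, hf⟩
  have hND : ∀ m : ℕ, NilEnd (tp (G.obj T ⊗ (G.obj T)ᘁ) m) := by
    intro m x hx
    refine ⟨1, ?_⟩
    rw [pow_one]
    exact hD (x : tp (G.obj T ⊗ (G.obj T)ᘁ) m ⟶ tp (G.obj T ⊗ (G.obj T)ᘁ) m) hx
  have hirD : (Functor.LaxMonoidal.ε G ≫ G.map i) ≫ (G.map r ≫ Functor.OplaxMonoidal.η G) =
      𝟙 (𝟙_ D) := by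
    rw [Category.assoc, ← Category.assoc (G.map i), ← G.map_comp, hir, G.map_id,
      Category.id_comp, Functor.Monoidal.ε_η]
  obtain ⟨pD, ND, -, -, -, -, -, hlimD, hMD1, -⟩ := main_nil hR hTD hND hirD (G.obj M)
  have hNDb : ND = bt R (G.obj M) := hMD1 hM
  rw [hNDb] at hlimD
  have hlimD' : Tendsto (fun n : ℕ => (hg Λ G (M ⊗ tp T n) (tp T n) : ℝ) /
      hg Λ G (tp T n) (tp T n)) atTop (𝓝 (bt R (G.obj M) : ℝ)) := by
    refine hlimD.congr fun n => ?_
    rw [← hg_tp G hD, ← hg_self G hD]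
  obtain ⟨k, hk0, hk1, hk2⟩ := index G hR hD hU hT hbT
  have hpos : ∀ n, 0 < hn Λ (tp T n) (tp T n) := by
    intro n
    obtain ⟨hEP, hIP⟩ := isPow_tensor_dual hRC hT hbT
    rw [hn_eq, ← numRank_tensor_dual hRC]
    exact (numRank_mono hIP n).1
  obtain ⟨hL, hev⟩ := tendsto_aux hk0 hb hpos hlim hlimD' hk1
  refine ⟨N, ((k : ℝ≥0∞)⁻¹).toReal, hle, (inv_cases hk0).1, hL, hev, hiff, ?_⟩
  constructor
  · intro hk X Y hX hY ψ
    obtain ⟨hEP, hIP⟩ := isPow_tensor_dual hRC hT hbT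
    exact full_fac G (full_tp G (T ⊗ Tᘁ) (hk2 ((inv_cases hk0).2.1 hk))) (hX.fac hir)
      (hY.fac hir) ψ
  · intro hfull
    -- all morphisms between the powers come from `C`
    have h1 : ∀ n, hg Λ G (tp T n) (tp T n) = hn Λ (tp T n) (tp T n) := by
      intro n
      have hbij : Function.Bijective (fun f : tp T n ⟶ tp T n => G.map f) :=
        ⟨fun a b hab => by
          rw [← sub_eq_zero]
          apply hG
          rw [G.map_sub, sub_eq_zero]
          exact hab, fun ψ => hfull (Thick.self.tp hir n) (Thick.self.tp hir n) ψ⟩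
      let e : (tp T n ⟶ tp T n) ≃ₗ[Λ] (G.obj (tp T n) ⟶ G.obj (tp T n)) :=
        LinearEquiv.ofBijective
          { toFun := fun a : (tp T n ⟶ tp T n) => (G.map a : G.obj (tp T n) ⟶ G.obj (tp T n))
            map_add' := fun a b => G.map_add
            map_smul' := fun c a => G.map_smul c a } hbij
      rw [hg, ← e.finrank_eq, hn]
      -- numerically trivial morphisms are zero
      have h2 : numIdeal Λ (tp T n) (tp T n) = ⊥ := by
        rw [eq_bot_iff]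
        intro f hfn
        have h3 : NumTriv (G.map f) := by
          intro ψ
          obtain ⟨g, rfl⟩ := hfull (Thick.self.tp hir n) (Thick.self.tp hir n) ψ
          have h4 := (tr_eq_zero_iff hRC (f ≫ g)).1 (hfn g)
          rw [tr_eq_zero_iff hR, ← G.map_comp]
          exact h4
        have h4 : f = 0 := hG f (hD _ h3)
        exact h4
      exact (Submodule.quotEquivOfEqBot _ h2).finrank_eq.symm
    have h2 : (k : ℝ≥0∞) = 1 := by
      refine tendsto_nhds_unique hk1 (tendsto_const_nhds.congr fun n => ?_)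
      rw [h1 n]
      exact (ENNReal.div_self (Nat.cast_ne_zero.2 (hpos n).ne') (ENNReal.natCast_ne_top _)).symm
    rw [h2, inv_one, ENNReal.toReal_one]

/-- The gap: a proportion larger than `1 - 1 / b`, infinitely often. -/
theorem hodge_gap (hR : IsReal Λ R) (hD : ∀ {X Y : D} (f : X ⟶ Y), NumTriv f → f = 0)
    (hU : ∀ c : 𝟙_ C ⟶ 𝟙_ C, ∃ q : Λ, c = q • 𝟙 _) (hG : ∀ {X Y : C} (f : X ⟶ Y),
      G.map f = 0 → f = 0) {T : C} (hT : (compR G R).CPlus T)
    {i : 𝟙_ C ⟶ T} {r : T ⟶ 𝟙_ C} (hir : i ≫ r = 𝟙 (𝟙_ C)) (M : C)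
    (hM : Thick (G.obj T) (G.obj M)) (hb : 2 ≤ bt R (G.obj M)) :
    (∃ δ : ℝ, 0 < δ ∧ ∃ᶠ n : ℕ in atTop,
      (1 - 1 / (bt R (G.obj M) : ℝ) + δ) * hg Λ G (M ⊗ tp T n) (tp T n) ≤
        hn Λ (M ⊗ tp T n) (tp T n)) ↔
      Thick T M ∧ ∀ {X Y : C}, Thick T X → Thick T Y → ∀ ψ : G.obj X ⟶ G.obj Y,
        ∃ f : X ⟶ Y, G.map f = ψ := by
  have hb0 : 0 < bt R (G.obj M) := by omega
  have hb' : (2 : ℝ) ≤ bt R (G.obj M) := by exact_mod_cast hb
  obtain ⟨N, κ, hN, hκ, hL, hev, hiff, hfull⟩ := hodge G hR hD hU hG hT hir M hM hb0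
  have hκ0 : 0 ≤ κ := by
    rcases hκ with h | ⟨k, hk, h⟩
    · rw [h]
    · rw [h]
      positivity
  have hκ1 : κ = 1 ∨ κ ≤ 1 / 2 := by
    rcases hκ with h | ⟨k, hk, h⟩
    · right
      rw [h]
      norm_num
    · rcases Nat.lt_or_ge 1 k with hk1 | hk1
      · right
        rw [h]
        have h2 : (2 : ℝ) ≤ k := by exact_mod_cast hk1
        rw [div_le_div_iff₀ (by linarith) (by norm_num)]
        linarith
      · left
        have : k = 1 := by omega
        rw [h, this]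
        norm_num
  have hNb : (N : ℝ) ≤ bt R (G.obj M) := by exact_mod_cast hN
  have hb1 : (0 : ℝ) < bt R (G.obj M) := by linarith
  have hb2 : 1 / (bt R (G.obj M) : ℝ) ≤ 1 / 2 := by
    rw [div_le_div_iff₀ hb1 (by norm_num)]
    linarith
  constructor
  · rintro ⟨δ, hδ, hfr⟩
    -- the limit is at least `1 - 1 / b + δ`
    have hge : 1 - 1 / (bt R (G.obj M) : ℝ) + δ ≤ (N : ℝ) / bt R (G.obj M) * κ := by
      by_contra hlt
      push Not at hlt
      have h1 : ∀ᶠ n : ℕ in atTop, (hn Λ (M ⊗ tp T n) (tp T n) : ℝ) /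
          hg Λ G (M ⊗ tp T n) (tp T n) < 1 - 1 / (bt R (G.obj M) : ℝ) + δ :=
        hL.eventually_lt_const hlt
      obtain ⟨n, hn1, hn2, hn3⟩ := (hfr.and_eventually (h1.and hev)).exists
      have h4 : (0 : ℝ) < hg Λ G (M ⊗ tp T n) (tp T n) := by exact_mod_cast hn3
      rw [div_lt_iff₀ h4] at hn2
      linarith
    have hNle : (N : ℝ) / bt R (G.obj M) ≤ 1 := by
      rw [div_le_one hb1]
      exact hNb
    have hN0 : (0 : ℝ) ≤ (N : ℝ) / bt R (G.obj M) := by positivity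
    have hk : κ = 1 := by
      rcases hκ1 with h | h
      · exact h
      · exfalso
        have : (N : ℝ) / bt R (G.obj M) * κ ≤ 1 * (1 / 2) := mul_le_mul hNle h hκ0 (by norm_num)
        linarith
    rw [hk, mul_one] at hge
    refine ⟨hiff.1 ?_, hfull.1 hk⟩
    by_contra hne
    have h5 : N + 1 ≤ bt R (G.obj M) := by omega
    have h6 : (N : ℝ) + 1 ≤ bt R (G.obj M) := by exact_mod_cast h5
    have h7 : (N : ℝ) / bt R (G.obj M) ≤ 1 - 1 / (bt R (G.obj M) : ℝ) := by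
      rw [div_le_iff₀ hb1, sub_mul, one_mul, div_mul_cancel₀ _ hb1.ne']
      linarith
    linarith
  · rintro ⟨hT1, hF⟩
    have hNe := hiff.2 hT1
    have hk : κ = 1 := hfull.2 hF
    rw [hNe, hk, div_self hb1.ne', mul_one] at hL
    refine ⟨1 / (2 * (bt R (G.obj M) : ℝ)), by positivity, ?_⟩
    have h1 : ∀ᶠ n : ℕ in atTop, 1 - 1 / (2 * (bt R (G.obj M) : ℝ)) <
        (hn Λ (M ⊗ tp T n) (tp T n) : ℝ) / hg Λ G (M ⊗ tp T n) (tp T n) := by
      refine hL.eventually_const_lt ?_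
      have : 0 < 1 / (2 * (bt R (G.obj M) : ℝ)) := by positivity
      linarith
    refine (h1.and hev).frequently.mono ?_
    rintro n ⟨hn1, hn2⟩
    have h4 : (0 : ℝ) < hg Λ G (M ⊗ tp T n) (tp T n) := by exact_mod_cast hn2
    rw [lt_div_iff₀ h4] at hn1
    have h5 : 1 - 1 / (bt R (G.obj M) : ℝ) + 1 / (2 * (bt R (G.obj M) : ℝ)) =
        1 - 1 / (2 * (bt R (G.obj M) : ℝ)) := by
      field_simp
      ring
    rw [h5]
    exact hn1.le

end Pool.Agent.V8H87.AB
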