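import Pool.Agent.V8H87.AB.Thick

/-!
# Direct summands of powers and the numbers of cycles: the main theorem
-/

set_option autoImplicit false
set_option linter.unusedSectionVars false

open CategoryTheory Limits MonoidalCategory Module Filter Topology
open Pool.Agent.Y112.SR Pool.Agent.Y112.KD Pool.Agent.N64.AF
open Pool.Agent.Y116.MT (tr)

namespace Pool.Agent.V8H87.AB

universe v u w t

variable {C : Type u} [Category.{v} C] [Preadditive C] [MonoidalCategory C]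
  [MonoidalPreadditive C] [SymmetricCategory C] [RightRigidCategory C]
  {Λ : Type t} [Field Λ] [CharZero Λ] [Linear Λ C] [MonoidalLinear Λ C]
  {K : Type w} [Field K] [Algebra Λ K] {R : SuperRealisation C K}

/-- numerically trivial endomorphisms have nilpotent realisations -/
lemma real_nil (hR : IsReal Λ R) {X : C} (hX : R.CPlus X) {x : End X}
    (hx : NumTriv (Y := X) (Z := X) x) : IsNilpotent (Pool.Agent.N8.AFBb.rho R X x) := by
  have hK : CharZero K := charZero_of_injective_algebraMap (algebraMap Λ K).injective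
  have : ∀ Y : C, Module.Finite K (R.H.obj Y) := R.finite
  exact Pool.Agent.N8.AFBb.nil_of_perp (H := fun Y : C => R.H.obj Y) (isCat_CK R)
    (Pool.Agent.N8.AFBb.mem_CK R (x : X ⟶ X)) ((mem_perp_iff hR hX _).2 hx)

/-- For a faithful realisation the sign conjecture for `X` implies that numerically trivial
endomorphisms are nilpotent. -/
lemma nilEnd_of_faithful (hR : IsReal Λ R)
    (hf : ∀ {X Y : C} (f : X ⟶ Y), R.H.map f = 0 → f = 0) {X : C} (hX : R.CPlus X) :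
    NilEnd X := by
  intro x hx
  obtain ⟨k, hk⟩ := real_nil hR hX hx
  refine ⟨k, ?_⟩
  rw [← map_pow] at hk
  exact hf (X := X) (Y := X) (x ^ k) (ModuleCat.hom_ext hk)

lemma trace_zero (hR : IsReal Λ R) {X : C} (hX : R.CPlus X) {x : X ⟶ X} (hx : NumTriv x) :
    LinearMap.trace K (R.H.obj X) (R.H.map x).hom = 0 := by
  have h0 := R.finite X
  exact (LinearMap.isNilpotent_trace_of_isNilpotent (real_nil hR hX (x := x) hx)).eq_zero

/-- A morphism which is orthogonal to the powers of `U` has trace zero against the morphisms which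
pass through them. -/
lemma trace_fac (hR : IsReal Λ R) {U : C} (hU : R.CPlus U) {M : C} {q : M ⟶ M}
    (hq : ∀ (m : ℕ) (v : M ⟶ tp U m), NumTriv (q ≫ v)) {x : M ⟶ M} (hx : Fac U x) :
    LinearMap.trace K (R.H.obj M) (R.H.map (q ≫ x)).hom = 0 := by
  refine hx.induction (p := fun x => LinearMap.trace K (R.H.obj M) (R.H.map (q ≫ x)).hom = 0)
    (fun n f g => ?_) ?_ (fun x y h1 h2 => ?_) (fun x h1 => ?_)
  · rw [← Category.assoc, trace_swap]
    exact trace_zero hR (cplus_tp hR hU n) (Pool.Agent.N199.AFA3.comp_left hR (hq n f) g)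
  · rw [comp_zero, R.H.map_zero, ModuleCat.hom_zero, map_zero]
  · rw [Preadditive.comp_add, R.H.map_add, ModuleCat.hom_add, map_add, h1, h2, add_zero]
  · rw [Preadditive.comp_neg, R.H.map_neg, ModuleCat.hom_neg, map_neg, h1, neg_zero]

lemma hn_retract (hR : IsReal Λ R) {P M : C} (i : P ⟶ M) (r : M ⟶ P) (h : i ≫ r = 𝟙 P)
    (Z : C) : hn Λ P Z ≤ hn Λ M Z := by
  rw [hn_eq, hn_eq, ← nr_retract hR i r h (𝟙 Z)]
  exact nr_le_left hR _ _

lemma isRk_unique [CharZero K] {M : C} {p : M ⟶ M} {r s : ℕ} (hr : IsRk R p r)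
    (hs : IsRk R p s) : r = s := by
  unfold IsRk at hr hs
  have h1 : (r : K) = s := hr.symm.trans hs
  exact_mod_cast h1

variable [IsAlgClosed K]

/-- The general form, without a hypothesis of faithfulness. -/
theorem main_nil [HasBinaryBiproducts C] (hR : IsReal Λ R) {T : C} (hT : R.CPlus T)
    (hN : ∀ m : ℕ, NilEnd (tp (T ⊗ Tᘁ) m)) {i : 𝟙_ C ⟶ T} {r : T ⟶ 𝟙_ C}
    (hir : i ≫ r = 𝟙 (𝟙_ C)) (M : C) :
    ∃ (p : M ⟶ M) (N : ℕ), p ≫ p = p ∧ IsRk R p N ∧ N ≤ bt R M ∧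
      (∃ Z : C, Thick T Z ∧ ∃ (f : M ⟶ Z) (g : Z ⟶ M), p = f ≫ g) ∧
      (∀ n : ℕ, hn Λ (M ⊗ tp T n) (tp T n) ≤ N * hn Λ (tp T n) (tp T n)) ∧
      Tendsto (fun n : ℕ => (hn Λ (M ⊗ tp T n) (tp T n) : ℝ) / hn Λ (tp T n) (tp T n)) atTop
        (𝓝 (N : ℝ)) ∧
      (Thick T M → N = bt R M) ∧
      (N = bt R M ↔ ∃ n : ℕ, bt R M * hn Λ (tp T n) (tp T n) <
        hn Λ (M ⊗ tp T n) (tp T n) + hn Λ (tp T n) (tp T n)) := by
  have hK : CharZero K := charZero_of_injective_algebraMap (algebraMap Λ K).injective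
  have hb : 0 < bt R T := bt_pos (Λ := Λ) ⟨hR, hT, i, r, hir⟩
  obtain ⟨hEP, hU⟩ := isPow_tensor_dual hR hT hb
  obtain ⟨p, N, hp, hNr, hle, hmax, hup, hpos, hlim⟩ := count hR hT hb hN M
  refine ⟨p, N, hp.idem, hNr, hle, hp.fac.exists_thick hir, hup, hlim, fun hM => ?_, ?_, ?_⟩
  · have h1 := trace_fac hR hU.cplus (q := 𝟙 M - p) hmax (hM.fac hir)
    rw [Category.comp_id] at h1
    obtain ⟨s, hs⟩ := Nat.exists_eq_add_of_le hle
    have h2 := isRk_compl hNr hs.symm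
    unfold IsRk at h2
    rw [h1] at h2
    have h3 : s = 0 := by exact_mod_cast h2.symm
    omega
  · intro hNb
    have h1 : ∀ᶠ n : ℕ in atTop, (N : ℝ) - 1 <
        (hn Λ (M ⊗ tp T n) (tp T n) : ℝ) / hn Λ (tp T n) (tp T n) :=
      hlim.eventually_const_lt (by linarith)
    obtain ⟨n, hlt⟩ := h1.exists
    refine ⟨n, ?_⟩
    have h2 : (0 : ℝ) < hn Λ (tp T n) (tp T n) := by exact_mod_cast hpos n
    rw [lt_div_iff₀ h2] at hlt
    have h3 : ((bt R M * hn Λ (tp T n) (tp T n) : ℕ) : ℝ) <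
        ((hn Λ (M ⊗ tp T n) (tp T n) + hn Λ (tp T n) (tp T n) : ℕ) : ℝ) := by
      push_cast
      rw [← hNb]
      linarith
    exact_mod_cast h3
  · rintro ⟨n, hlt⟩
    by_contra hne
    have h1 : N + 1 ≤ bt R M := by omega
    have h2 := hup n
    have h3 := hpos n
    have h4 := Nat.mul_le_mul_right (hn Λ (tp T n) (tp T n)) h1
    rw [add_mul, one_mul] at h4
    omega

/-- The main theorem for a faithful realisation. -/
theorem main [HasBinaryBiproducts C] [IsIdempotentComplete C] (hR : IsReal Λ R)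
    (hf : ∀ {X Y : C} (f : X ⟶ Y), R.H.map f = 0 → f = 0) {T : C} (hT : R.CPlus T)
    {i : 𝟙_ C ⟶ T} {r : T ⟶ 𝟙_ C} (hir : i ≫ r = 𝟙 (𝟙_ C)) (M : C) :
    ∃ N : ℕ, N ≤ bt R M ∧
      (∃ (P : C) (j : P ⟶ M) (s : M ⟶ P), j ≫ s = 𝟙 P ∧ Thick T P ∧ bt R P = N) ∧
      (∀ (P : C) (j : P ⟶ M) (s : M ⟶ P), j ≫ s = 𝟙 P → Thick T P → bt R P ≤ N) ∧
      (∀ n : ℕ, hn Λ (M ⊗ tp T n) (tp T n) ≤ N * hn Λ (tp T n) (tp T n)) ∧
      Tendsto (fun n : ℕ => (hn Λ (M ⊗ tp T n) (tp T n) : ℝ) / hn Λ (tp T n) (tp T n)) atTop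
        (𝓝 (N : ℝ)) ∧
      (Thick T M ↔ N = bt R M) ∧
      (Thick T M ↔ ∃ n : ℕ, bt R M * hn Λ (tp T n) (tp T n) <
        hn Λ (M ⊗ tp T n) (tp T n) + hn Λ (tp T n) (tp T n)) := by
  have hK : CharZero K := charZero_of_injective_algebraMap (algebraMap Λ K).injective
  have hN : ∀ m : ℕ, NilEnd (tp (T ⊗ Tᘁ) m) := fun m => nilEnd_of_faithful hR hf
    (cplus_tp hR (cplus_tensor hR hT (cplus_dual hR hT)) m)
  have hth : ∀ M : C, ∀ (p : M ⟶ M) (N : ℕ), p ≫ p = p → IsRk R p N → N = bt R M →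
      (∃ Z : C, Thick T Z ∧ ∃ (f : M ⟶ Z) (g : Z ⟶ M), p = f ≫ g) → Thick T M := by
    rintro M p N hpp hNr hNb ⟨Z, hZ, f, g, hfg⟩
    have h0 := R.finite M
    have h1 := (rk_le (R := R) hpp hNr).2
    have h2 : LinearMap.range (R.H.map p).hom = ⊤ := by
      apply Submodule.eq_top_of_finrank_eq
      rw [h1, hNb]
      rfl
    have h3 : R.H.map p = 𝟙 _ := by
      apply ModuleCat.hom_ext
      ext x
      obtain ⟨y, rfl⟩ := LinearMap.range_eq_top.1 h2 x
      have h4 := congrArg (fun z => (R.H.map z).hom y) hpp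
      simp only [R.H.map_comp, ModuleCat.hom_comp, LinearMap.comp_apply] at h4
      exact h4
    have h4 : p = 𝟙 M := by
      rw [← sub_eq_zero]
      apply hf
      rw [R.H.map_sub, h3, R.H.map_id, sub_self]
    exact hZ.summand f g (by rw [← hfg, h4])
  obtain ⟨p, N, hpp, hNr, hle, hfac, hup, hlim, hM1, hM2⟩ := main_nil hR hT hN hir M
  have hiff : Thick T M ↔ N = bt R M := ⟨hM1, fun h => hth M p N hpp hNr h hfac⟩
  refine ⟨N, hle, ?_, ?_, hup, hlim, hiff, hiff.trans hM2⟩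
  · obtain ⟨P, j, s, hjs, hsj⟩ := IsIdempotentComplete.idempotents_split M p hpp
    refine ⟨P, j, s, hjs, ?_, ?_⟩
    · obtain ⟨Z, hZ, f, g, hfg⟩ := hfac
      refine hZ.summand (j ≫ f) (g ≫ s) ?_
      have h1 : (j ≫ f) ≫ g ≫ s = j ≫ (f ≫ g) ≫ s := by simp only [Category.assoc]
      rw [h1, ← hfg, ← hsj]
      simp only [Category.assoc]
      rw [hjs, Category.comp_id, hjs]
    · have h1 := trace_swap (R := R) s j
      rw [hsj, hjs] at h1
      have h2 := isRk_id R P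
      unfold IsRk at h2 hNr
      rw [hNr, h2] at h1
      exact_mod_cast h1.symm
  · intro P j s hjs hP
    obtain ⟨p', N', -, -, -, -, -, hlim', hM1', -⟩ := main_nil hR hT hN hir P
    have h1 : (N' : ℝ) ≤ N := by
      refine le_of_tendsto_of_tendsto' hlim' hlim fun n => ?_
      have h2 : hn Λ (P ⊗ tp T n) (tp T n) ≤ hn Λ (M ⊗ tp T n) (tp T n) := by
        refine hn_retract hR (j ▷ tp T n) (s ▷ tp T n) ?_ _
        rw [← comp_whiskerRight, hjs, id_whiskerRight]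
      have h3 : (hn Λ (P ⊗ tp T n) (tp T n) : ℝ) ≤ hn Λ (M ⊗ tp T n) (tp T n) := by
        exact_mod_cast h2
      exact div_le_div_of_nonneg_right h3 (Nat.cast_nonneg _)
    rw [← hM1' hP]
    exact_mod_cast h1

end Pool.Agent.V8H87.AB
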