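import Pool.Agent.V8H87.AB.Fit

/-!
# Splitting off direct summands: the maximal summand which comes from the powers of an object
-/

set_option autoImplicit false
set_option linter.unusedSectionVars false

open CategoryTheory Limits MonoidalCategory Module Filter Topology
open Pool.Agent.Y112.SR Pool.Agent.Y112.KD Pool.Agent.N64.AF
open Pool.Agent.Y116.MT (tr)

namespace Pool.Agent.V8H87.AB

universe v u w t

/-- `p` is a sum of pairwise orthogonal idempotent endomorphisms of `M`, each of which cuts out a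
direct summand of a tensor power of `U`. -/
inductive Peel {C : Type u} [Category.{v} C] [Preadditive C] [MonoidalCategory C] (U M : C) :
    (M ⟶ M) → Prop
  | zero : Peel U M 0
  | add {p : M ⟶ M} {m : ℕ} (f : M ⟶ tp U m) (g : tp U m ⟶ M) (hp : Peel U M p)
      (h1 : f ≫ g ≫ f = f) (h2 : g ≫ f ≫ g = g) (h3 : p ≫ f = 0) (h4 : g ≫ p = 0) :
      Peel U M (p + f ≫ g)

variable {C : Type u} [Category.{v} C] [Preadditive C] [MonoidalCategory C]
  [MonoidalPreadditive C] [SymmetricCategory C] [RightRigidCategory C]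
  {Λ : Type t} [Field Λ] [CharZero Λ] [Linear Λ C] [MonoidalLinear Λ C]
  {K : Type w} [Field K] [Algebra Λ K] {R : SuperRealisation C K}

lemma Peel.idem {U M : C} {p : M ⟶ M} (h : Peel U M p) : p ≫ p = p := by
  induction h with
  | zero => simp
  | add f g hp h1 h2 h3 h4 ih =>
    rw [Preadditive.add_comp, Preadditive.comp_add, Preadditive.comp_add, ih,
      reassoc_of% h3, Category.assoc, h4, comp_zero, Category.assoc, reassoc_of% h1,
      zero_comp, add_zero, zero_add]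

/-! ### multiplicities of orthogonal summands -/

open Pool.Agent.N199.AFA3 in
lemma nr_orth (hR : IsReal Λ R) {Y Z : C} {e1 e2 : Y ⟶ Y} (h11 : e1 ≫ e1 = e1)
    (h22 : e2 ≫ e2 = e2) (h12 : e1 ≫ e2 = 0) (h21 : e2 ≫ e1 = 0) (f : Z ⟶ Z) :
    nr Λ (e1 + e2) f = nr Λ e1 f + nr Λ e2 f := by
  have := finite_num hR Y Z
  rw [nr_eq, nr_eq, nr_eq]
  set N := numIdeal Λ Y Z with hN
  have hs1 : sw Λ (e1 + e2) f = sw Λ e1 f ⊔ sw Λ e2 f := by
    apply le_antisymm
    · intro x hx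
      obtain ⟨c, rfl⟩ := mem_sw.1 hx
      rw [Submodule.mem_sup]
      exact ⟨e1 ≫ c ≫ f, mem_sw.2 ⟨c, rfl⟩, e2 ≫ c ≫ f, mem_sw.2 ⟨c, rfl⟩,
        (Preadditive.add_comp _ _ _ _ _ _).symm⟩
    · apply sup_le
      · intro x hx
        obtain ⟨c, rfl⟩ := mem_sw.1 hx
        refine mem_sw.2 ⟨e1 ≫ c, ?_⟩
        rw [Category.assoc, Preadditive.add_comp, reassoc_of% h11, reassoc_of% h21, zero_comp,
          add_zero]
      · intro x hx
        obtain ⟨c, rfl⟩ := mem_sw.1 hx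
        refine mem_sw.2 ⟨e2 ≫ c, ?_⟩
        rw [Category.assoc, Preadditive.add_comp, reassoc_of% h22, reassoc_of% h12, zero_comp,
          zero_add]
  have h1 : (sw Λ (e1 + e2) f).map N.mkQ = (sw Λ e1 f).map N.mkQ ⊔ (sw Λ e2 f).map N.mkQ := by
    rw [← Submodule.map_sup, hs1]
  have h2 : (sw Λ e1 f).map N.mkQ ⊓ (sw Λ e2 f).map N.mkQ = ⊥ := by
    rw [eq_bot_iff]
    rintro x ⟨hx1, hx2⟩
    obtain ⟨y, hy, rfl⟩ := Submodule.mem_map.1 hx1
    obtain ⟨y', hy', hyy'⟩ := Submodule.mem_map.1 hx2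
    obtain ⟨c, rfl⟩ := mem_sw.1 hy
    obtain ⟨c', rfl⟩ := mem_sw.1 hy'
    rw [Submodule.mkQ_apply, Submodule.mkQ_apply, Submodule.Quotient.eq] at hyy'
    rw [Submodule.mem_bot, Submodule.mkQ_apply, Submodule.Quotient.mk_eq_zero]
    have e1' : e1 ≫ (e2 ≫ c' ≫ f - e1 ≫ c ≫ f) ∈ N := comp_left hR hyy' e1
    have e4 : e1 ≫ c ≫ f = -(e1 ≫ (e2 ≫ c' ≫ f - e1 ≫ c ≫ f)) := by
      rw [Preadditive.comp_sub, reassoc_of% h12, reassoc_of% h11, zero_comp, zero_sub, neg_neg]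
    rw [e4]
    exact N.neg_mem e1'
  have h3 := Submodule.finrank_sup_add_finrank_inf_eq ((sw Λ e1 f).map N.mkQ)
    ((sw Λ e2 f).map N.mkQ)
  rw [h2, ← h1, finrank_bot, add_zero] at h3
  exact h3

open Pool.Agent.N199.AFA3 in
lemma nr_swap (hR : IsReal Λ R) {M Y Z : C} (f : M ⟶ Y) (g : Y ⟶ M) (h1 : f ≫ g ≫ f = f)
    (h2 : g ≫ f ≫ g = g) (φ : Z ⟶ Z) : nr Λ (f ≫ g) φ = nr Λ (g ≫ f) φ := by
  have hΦ : ∀ c : M ⟶ Z, Linear.leftComp Λ Z g c = g ≫ c := fun _ => rfl
  refine nr_eq_of _ _ _ _ (Linear.leftComp Λ Z g) (fun c => ⟨g ≫ c, ?_⟩)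
    (fun c' => ⟨f ≫ c', ?_⟩) ?_
  · rw [hΦ]
    simp only [Category.assoc]
  · rw [hΦ]
    simp only [Category.assoc]
    rw [reassoc_of% h1]
  · intro c
    rw [hΦ]
    constructor
    · intro h
      have h3 := comp_left hR h f
      have h4 : f ≫ g ≫ (f ≫ g) ≫ c ≫ φ = (f ≫ g) ≫ c ≫ φ := by
        simp only [Category.assoc]
        rw [reassoc_of% h1]
      rwa [h4] at h3
    · intro h
      exact comp_left hR h _

lemma trace_swap {M Y : C} (f : M ⟶ Y) (g : Y ⟶ M) :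
    LinearMap.trace K (R.H.obj M) (R.H.map (f ≫ g)).hom =
      LinearMap.trace K (R.H.obj Y) (R.H.map (g ≫ f)).hom := by
  have h0 := R.finite M
  have h0' := R.finite Y
  rw [R.H.map_comp, R.H.map_comp, ModuleCat.hom_comp, ModuleCat.hom_comp]
  exact LinearMap.trace_comp_comm' _ _

lemma numIdem_of_idem {Y : C} {e : Y ⟶ Y} (h : e ≫ e = e) : NumIdem e := by
  unfold NumIdem
  rw [h, sub_self]
  exact P2aux.zero _ _

lemma nr_zero_left (hR : IsReal Λ R) {Y Z : C} (f : Z ⟶ Z) : nr Λ (0 : Y ⟶ Y) f = 0 := by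
  rw [Pool.Agent.N199.AFA3.nr_eq]
  have h1 : Pool.Agent.N199.AFA3.sw Λ (0 : Y ⟶ Y) f = ⊥ := by
    rw [eq_bot_iff]
    intro x hx
    obtain ⟨c, rfl⟩ := Pool.Agent.N199.AFA3.mem_sw.1 hx
    rw [zero_comp]
    exact Submodule.zero_mem _
  rw [h1, Submodule.map_bot, finrank_bot]

lemma nr_of_numTriv (hR : IsReal Λ R) {Y Z : C} {e : Y ⟶ Y}
    (h : ∀ v : Y ⟶ Z, NumTriv (e ≫ v)) (f : Z ⟶ Z) : nr Λ e f = 0 := by
  rw [Pool.Agent.N199.AFA3.nr_eq]
  have h1 : (Pool.Agent.N199.AFA3.sw Λ e f).map (numIdeal Λ Y Z).mkQ = ⊥ := by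
    rw [eq_bot_iff]
    rintro _ ⟨x, hx, rfl⟩
    obtain ⟨c, rfl⟩ := Pool.Agent.N199.AFA3.mem_sw.1 hx
    rw [Submodule.mem_bot, Submodule.mkQ_apply, Submodule.Quotient.mk_eq_zero]
    exact h _
  rw [h1, finrank_bot]

/-! ### the invariants of a sum of orthogonal summands -/

section alg

variable [IsAlgClosed K]

lemma Peel.whisker_orth {U M W : C} {p : M ⟶ M} (hp : Peel U M p) {m : ℕ} {f : M ⟶ tp U m}
    {g : tp U m ⟶ M} (h1 : f ≫ g ≫ f = f) (h3 : p ≫ f = 0) (h4 : g ≫ p = 0) :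
    (p ▷ W) ≫ (p ▷ W) = p ▷ W ∧ ((f ≫ g) ▷ W) ≫ ((f ≫ g) ▷ W) = (f ≫ g) ▷ W ∧
      (p ▷ W) ≫ ((f ≫ g) ▷ W) = 0 ∧ ((f ≫ g) ▷ W) ≫ (p ▷ W) = 0 := by
  refine ⟨?_, ?_, ?_, ?_⟩
  · rw [← comp_whiskerRight, hp.idem]
  · rw [← comp_whiskerRight, Category.assoc, reassoc_of% h1]
  · rw [← comp_whiskerRight, reassoc_of% h3, zero_comp, MonoidalPreadditive.zero_whiskerRight]
  · rw [← comp_whiskerRight, Category.assoc, h4, comp_zero, MonoidalPreadditive.zero_whiskerRight]

/-- The rank and the multiplicities. -/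
theorem Peel.main {U M : C} [ExactPairing U U] (h : IsPow Λ R U) {p : M ⟶ M}
    (hp : Peel U M p) : ∃ r : ℕ, IsRk R p r ∧
      (∀ W : C, R.CPlus W → nr Λ (p ▷ W) (𝟙 W) ≤ r * nr Λ (𝟙 W) (𝟙 W)) ∧
      ∀ δ : ℝ, 0 < δ → ∀ᶠ n in atTop,
        ((r : ℝ) - δ) * cmpSeq (fun n => numRank Λ (tp U n)) (bt R U) n ≤
          nr Λ p (𝟙 (tp U n)) := by
  have hR := h.real
  have h0 := R.finite M
  induction hp with
  | zero =>
    refine ⟨0, ?_, fun W _ => ?_, fun δ hδ => Eventually.of_forall fun n => ?_⟩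
    · unfold IsRk
      rw [Functor.map_zero, ModuleCat.hom_zero, map_zero, Nat.cast_zero]
    · rw [MonoidalPreadditive.zero_whiskerRight, nr_zero_left hR]
      exact Nat.zero_le _
    · rw [nr_zero_left hR, Nat.cast_zero, zero_sub]
      have h1 : (0 : ℝ) ≤ cmpSeq (fun n => numRank Λ (tp U n)) (bt R U) n := Nat.cast_nonneg _
      nlinarith
  | @add p m f g hp h1 h2 h3 h4 ih =>
    obtain ⟨r, hr, hub, hlb⟩ := ih
    have hε : (g ≫ f) ≫ (g ≫ f) = g ≫ f := by
      rw [Category.assoc, h1]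
    have hεn := numIdem_of_idem hε
    have hcp := cplus_tp hR h.cplus m
    obtain ⟨s, hs, -⟩ := exists_rk hR hcp hεn
    refine ⟨r + s, ?_, fun W hW => ?_, fun δ hδ => ?_⟩
    · unfold IsRk at *
      rw [R.H.map_add, ModuleCat.hom_add, map_add, hr, trace_swap, hs, Nat.cast_add]
    · obtain ⟨e1, e2, e3, e4⟩ := hp.whisker_orth (W := W) h1 h3 h4
      rw [MonoidalPreadditive.add_whiskerRight, nr_orth hR e1 e2 e3 e4, add_mul]
      refine Nat.add_le_add (hub W hW) ?_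
      have e5 : nr Λ ((f ≫ g) ▷ W) (𝟙 W) = nr Λ ((g ≫ f) ▷ W) (𝟙 W) := by
        rw [comp_whiskerRight, comp_whiskerRight]
        refine nr_swap hR (f ▷ W) (g ▷ W) ?_ ?_ _
        · rw [← comp_whiskerRight, ← comp_whiskerRight, h1]
        · rw [← comp_whiskerRight, ← comp_whiskerRight, h2]
      rw [e5]
      exact schur hR hcp hW hεn hs
    · have hl1 := hlb (δ / 2) (by linarith)
      have hl2 := eventually_nr h hεn hs (δ := δ / 2) (by linarith)
      filter_upwards [hl1, hl2] with n hn1 hn2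
      have e1 : nr Λ (p + f ≫ g) (𝟙 (tp U n)) =
          nr Λ p (𝟙 (tp U n)) + nr Λ (g ≫ f) (𝟙 (tp U n)) := by
        rw [nr_orth hR hp.idem (by rw [Category.assoc, reassoc_of% h1])
          (by rw [reassoc_of% h3, zero_comp]) (by rw [Category.assoc, h4, comp_zero]),
          nr_swap hR f g h1 h2]
      rw [e1]
      push_cast
      nlinarith

/-- The rank of an idempotent endomorphism is at most the dimension. -/
lemma rk_le {M : C} {p : M ⟶ M} (hp : p ≫ p = p) {r : ℕ} (hr : IsRk R p r) [CharZero K] :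
    r ≤ bt R M ∧ finrank K (LinearMap.range (R.H.map p).hom) = r := by
  have h0 := R.finite M
  have hid : IsIdempotentElem (R.H.map p).hom := by
    have h1 := congrArg (fun x => (R.H.map x).hom) hp
    simp only [R.H.map_comp, ModuleCat.hom_comp] at h1
    exact h1
  have h1 := (LinearMap.IsIdempotentElem.isProj_range _ hid).trace
  unfold IsRk at hr
  have h2 : (finrank K (LinearMap.range (R.H.map p).hom) : K) = r := by
    rw [← h1, hr]
  have h3 : finrank K (LinearMap.range (R.H.map p).hom) = r := by exact_mod_cast h2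
  exact ⟨h3 ▸ Submodule.finrank_le _, h3⟩

/-- One step. -/
theorem Peel.step {U M : C} [ExactPairing U U] (h : IsPow Λ R U)
    (hN : ∀ m : ℕ, NilEnd (tp U m)) {p : M ⟶ M} (hp : Peel U M p) {r : ℕ} (hr : IsRk R p r)
    {m : ℕ} {v : M ⟶ tp U m} (hv : ¬ NumTriv ((𝟙 M - p) ≫ v)) :
    ∃ p' : M ⟶ M, ∃ r' : ℕ, Peel U M p' ∧ IsRk R p' r' ∧ r < r' := by
  have hR := h.real
  have h0 := R.finite M
  have hcp := cplus_tp hR h.cplus m
  have hfin := R.finite (tp U m)
  have hK : CharZero K := charZero_of_injective_algebraMap (algebraMap Λ K).injective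
  set q : M ⟶ M := 𝟙 M - p with hq
  have hqq : q ≫ q = q := by
    rw [hq, Preadditive.sub_comp, Preadditive.comp_sub, Preadditive.comp_sub, Category.id_comp,
      Category.id_comp, Category.comp_id, hp.idem]
    abel
  have hpq : p ≫ q = 0 := by
    rw [hq, Preadditive.comp_sub, Category.comp_id, hp.idem, sub_self]
  have hqp : q ≫ p = 0 := by
    rw [hq, Preadditive.sub_comp, Category.id_comp, hp.idem, sub_self]
  unfold NumTriv at hv
  push Not at hv
  obtain ⟨w, hw⟩ := hv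
  have hw1 : tr ((q ≫ v) ≫ w ≫ q) ≠ 0 := by
    intro h1
    apply hw
    have h2 : (q ≫ v) ≫ w ≫ q = ((q ≫ v) ≫ w) ≫ q := by simp only [Category.assoc]
    rw [h2, tr_comm_zero hR] at h1
    have h3 : q ≫ (q ≫ v) ≫ w = (q ≫ v) ≫ w := by
      simp only [Category.assoc]
      rw [reassoc_of% hqq]
    rwa [h3] at h1
  set s : End (tp U m) := (w ≫ q) ≫ (q ≫ v) with hs
  have hs1 : tr (X := tp U m) s ≠ 0 := by
    intro h1
    exact hw1 ((tr_comm_zero hR _ _).2 h1)
  have hs2 : ¬ IsNilpotent s := by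
    intro hnil
    apply hs1
    rw [tr_eq_zero_iff hR]
    have h8 : IsNilpotent (Pool.Agent.N8.AFBb.rho R (tp U m) s) := by
      obtain ⟨k, hk⟩ := hnil
      refine ⟨k, ?_⟩
      rw [← map_pow, hk]
      change (R.H.map (0 : tp U m ⟶ tp U m)).hom = 0
      rw [R.H.map_zero, ModuleCat.hom_zero]
    have h9 : (R.H.map s ≫ R.par (tp U m)).hom =
        (R.par (tp U m)).hom * Pool.Agent.N8.AFBb.rho R (tp U m) s := rfl
    have h10 : Commute (R.par (tp U m)).hom (Pool.Agent.N8.AFBb.rho R (tp U m) s) := by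
      have := congrArg ModuleCat.Hom.hom (R.par_natural (X := tp U m) (Y := tp U m) s)
      exact this
    rw [h9]
    exact (LinearMap.isNilpotent_trace_of_isNilpotent (h10.isNilpotent_mul_left h8)).eq_zero
  obtain ⟨a, e, hsa, has, hee, hea, hae, hnt⟩ := fit hR (hN m) s hs2
  -- in terms of composition
  have c1 : (a : tp U m ⟶ tp U m) ≫ (w ≫ q) ≫ (q ≫ v) = e := hsa
  have c2 : ((w ≫ q) ≫ (q ≫ v)) ≫ (a : tp U m ⟶ tp U m) = e := has
  have c3 : (e : tp U m ⟶ tp U m) ≫ e = e := hee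
  have c4 : (a : tp U m ⟶ tp U m) ≫ e = a := hea
  have c5 : (e : tp U m ⟶ tp U m) ≫ a = a := hae
  have c2' : w ≫ q ≫ v ≫ (a : tp U m ⟶ tp U m) = e := by
    rw [← c2]
    simp only [Category.assoc]
    rw [reassoc_of% hqq]
  set f : M ⟶ tp U m := q ≫ v ≫ a with hf
  set g : tp U m ⟶ M := (e : tp U m ⟶ tp U m) ≫ w ≫ q with hg
  have hgf : g ≫ f = e := by
    rw [hg, hf]
    simp only [Category.assoc]
    rw [reassoc_of% hqq, c2', c3]
  have hfe : f ≫ e = f := by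
    rw [hf]
    simp only [Category.assoc]
    rw [c4]
  have heg : (e : tp U m ⟶ tp U m) ≫ g = g := by
    rw [hg, reassoc_of% c3]
  have h1 : f ≫ g ≫ f = f := by rw [hgf, hfe]
  have h2 : g ≫ f ≫ g = g := by rw [reassoc_of% hgf, heg]
  have h3 : p ≫ f = 0 := by rw [hf, reassoc_of% hpq, zero_comp]
  have h4 : g ≫ p = 0 := by
    rw [hg]
    simp only [Category.assoc]
    rw [hqp, comp_zero, comp_zero]
  obtain ⟨s', hs', -⟩ := exists_rk (R := R) hR hcp (numIdem_of_idem c3)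
  refine ⟨p + f ≫ g, r + s', Peel.add f g hp h1 h2 h3 h4, ?_, ?_⟩
  · unfold IsRk at *
    rw [R.H.map_add, ModuleCat.hom_add, map_add, hr, trace_swap, hgf, hs', Nat.cast_add]
  · have h5 : s' ≠ 0 := by
      rintro rfl
      apply hnt
      have h6 := (rk_le (R := R) c3 hs').2
      have h7 : (R.H.map (e : tp U m ⟶ tp U m)).hom = 0 := by
        have h8 : LinearMap.range (R.H.map (e : tp U m ⟶ tp U m)).hom = ⊥ :=
          Submodule.finrank_eq_zero.1 h6
        exact LinearMap.range_eq_bot.1 h8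
      intro b
      rw [tr_eq_zero_iff hR]
      have h9 : R.H.map (e : tp U m ⟶ tp U m) = 0 := ModuleCat.hom_ext h7
      rw [R.H.map_comp, h9, zero_comp, zero_comp, ModuleCat.hom_zero, map_zero]
    omega

/-- The maximal summand. -/
theorem exists_peel {U : C} [ExactPairing U U] (h : IsPow Λ R U)
    (hN : ∀ m : ℕ, NilEnd (tp U m)) (M : C) : ∃ p : M ⟶ M, Peel U M p ∧
      ∀ (m : ℕ) (v : M ⟶ tp U m), NumTriv ((𝟙 M - p) ≫ v) := by
  by_contra hcon
  push Not at hcon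
  have hR := h.real
  have hK : CharZero K := charZero_of_injective_algebraMap (algebraMap Λ K).injective
  have key : ∀ j : ℕ, ∃ p : M ⟶ M, ∃ r : ℕ, Peel U M p ∧ IsRk R p r ∧ j ≤ r := by
    intro j
    induction j with
    | zero =>
      obtain ⟨r, hr, -⟩ := (Peel.zero (U := U) (M := M)).main h
      exact ⟨0, r, Peel.zero, hr, Nat.zero_le _⟩
    | succ j ih =>
      obtain ⟨p, r, hp, hr, hj⟩ := ih
      obtain ⟨m, v, hv⟩ := hcon p hp
      obtain ⟨p', r', hp', hr', hrr⟩ := hp.step h hN hr hv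
      exact ⟨p', r', hp', hr', by omega⟩
  obtain ⟨p, r, hp, hr, hj⟩ := key (bt R M + 1)
  have := (rk_le (R := R) hp.idem hr).1
  omega

end alg

end Pool.Agent.V8H87.AB
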