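import Pool.Agent.V8H87.AB.Count

/-!
# The thick tensor subcategory generated by an object
-/

set_option autoImplicit false
set_option linter.unusedSectionVars false

open CategoryTheory Limits MonoidalCategory Module Filter Topology
open Pool.Agent.Y112.SR Pool.Agent.Y112.KD Pool.Agent.N64.AF
open Pool.Agent.Y116.MT (tr)

namespace Pool.Agent.V8H87.AB

universe v u w t

/-- The objects of the thick tensor subcategory generated by `T`: the smallest class of objects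
which contains `T` and is closed under isomorphisms, direct sums, tensor products, duals and direct
summands. -/
inductive Thick {C : Type u} [Category.{v} C] [Preadditive C] [HasBinaryBiproducts C]
    [MonoidalCategory C] [RightRigidCategory C] (T : C) : C → Prop
  | self : Thick T T
  | iso {X Y : C} (hX : Thick T X) (e : X ≅ Y) : Thick T Y
  | sum {X Y : C} (hX : Thick T X) (hY : Thick T Y) : Thick T (X ⊞ Y)
  | tensor {X Y : C} (hX : Thick T X) (hY : Thick T Y) : Thick T (X ⊗ Y)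
  | dual {X : C} (hX : Thick T X) : Thick T (Xᘁ)
  | summand {X Y : C} (hX : Thick T X) (i : Y ⟶ X) (r : X ⟶ Y) (h : i ≫ r = 𝟙 Y) : Thick T Y

/-- The morphism `x` is a sum of composites which pass through tensor powers of `U`. -/
def Fac {C : Type u} [Category.{v} C] [Preadditive C] [MonoidalCategory C] (U : C) {M M' : C}
    (x : M ⟶ M') : Prop :=
  x ∈ AddSubgroup.closure {y : M ⟶ M' | ∃ (n : ℕ) (f : M ⟶ tp U n) (g : tp U n ⟶ M'), f ≫ g = y}

variable {C : Type u} [Category.{v} C] [Preadditive C] [MonoidalCategory C]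
  [MonoidalPreadditive C] [SymmetricCategory C] [RightRigidCategory C]

section

variable {U : C}

lemma Fac.zero {M M' : C} : Fac U (0 : M ⟶ M') := AddSubgroup.zero_mem _

lemma Fac.add {M M' : C} {x y : M ⟶ M'} (hx : Fac U x) (hy : Fac U y) : Fac U (x + y) :=
  AddSubgroup.add_mem _ hx hy

lemma Fac.neg {M M' : C} {x : M ⟶ M'} (hx : Fac U x) : Fac U (-x) :=
  AddSubgroup.neg_mem _ hx

lemma Fac.gen {M M' : C} {n : ℕ} (f : M ⟶ tp U n) (g : tp U n ⟶ M') : Fac U (f ≫ g) :=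
  AddSubgroup.subset_closure ⟨n, f, g, rfl⟩

lemma Fac.induction {M M' : C} {p : (M ⟶ M') → Prop} {x : M ⟶ M'} (hx : Fac U x)
    (h1 : ∀ (n : ℕ) (f : M ⟶ tp U n) (g : tp U n ⟶ M'), p (f ≫ g)) (h0 : p 0)
    (ha : ∀ x y, p x → p y → p (x + y)) (hn : ∀ x, p x → p (-x)) : p x := by
  refine AddSubgroup.closure_induction (p := fun x _ => p x) ?_ h0 (fun x y _ _ => ha x y)
    (fun x _ => hn x) hx
  rintro _ ⟨n, f, g, rfl⟩
  exact h1 n f g

lemma Fac.comp_left {L M M' : C} {x : M ⟶ M'} (hx : Fac U x) (a : L ⟶ M) : Fac U (a ≫ x) := by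
  refine hx.induction (p := fun x => Fac U (a ≫ x)) (fun n f g => ?_) ?_ (fun x y h1 h2 => ?_)
    (fun x h1 => ?_)
  · rw [← Category.assoc]
    exact Fac.gen _ _
  · rw [comp_zero]
    exact Fac.zero
  · rw [Preadditive.comp_add]
    exact h1.add h2
  · rw [Preadditive.comp_neg]
    exact h1.neg

lemma Fac.comp_right {M M' N : C} {x : M ⟶ M'} (hx : Fac U x) (b : M' ⟶ N) : Fac U (x ≫ b) := by
  refine hx.induction (p := fun x => Fac U (x ≫ b)) (fun n f g => ?_) ?_ (fun x y h1 h2 => ?_)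
    (fun x h1 => ?_)
  · rw [Category.assoc]
    exact Fac.gen _ _
  · rw [zero_comp]
    exact Fac.zero
  · rw [Preadditive.add_comp]
    exact h1.add h2
  · rw [Preadditive.neg_comp]
    exact h1.neg

lemma neg_right {X Y : C} (a : X ⟶ Y) (Z : C) : (-a) ▷ Z = -(a ▷ Z) := by
  rw [eq_neg_iff_add_eq_zero, ← MonoidalPreadditive.add_whiskerRight, neg_add_cancel,
    MonoidalPreadditive.zero_whiskerRight]

lemma neg_left {X Y : C} (a : X ⟶ Y) (Z : C) : Z ◁ (-a) = -(Z ◁ a) := by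
  rw [eq_neg_iff_add_eq_zero, ← MonoidalPreadditive.whiskerLeft_add, neg_add_cancel,
    MonoidalPreadditive.whiskerLeft_zero]

lemma Fac.tensor {M M' N N' : C} {x : M ⟶ M'} (hx : Fac U x) {y : N ⟶ N'} (hy : Fac U y) :
    Fac U (x ⊗ₘ y) := by
  refine hx.induction (p := fun x => Fac U (x ⊗ₘ y)) (fun n f g => ?_) ?_ (fun x y h1 h2 => ?_)
    (fun x h1 => ?_)
  · refine hy.induction (p := fun y => Fac U ((f ≫ g) ⊗ₘ y)) (fun n' f' g' => ?_) ?_
      (fun x y h1 h2 => ?_) (fun x h1 => ?_)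
    · obtain ⟨i, -⟩ := exists_tp_iso U n n'
      rw [← MonoidalCategory.tensorHom_comp_tensorHom]
      have h1 : (f ⊗ₘ f') ≫ (g ⊗ₘ g') = ((f ⊗ₘ f') ≫ i.hom) ≫ i.inv ≫ (g ⊗ₘ g') := by
        rw [Category.assoc, Iso.hom_inv_id_assoc]
      rw [h1]
      exact Fac.gen _ _
    · rw [MonoidalPreadditive.tensor_zero]
      exact Fac.zero
    · rw [MonoidalPreadditive.tensor_add]
      exact h1.add h2
    · rw [MonoidalCategory.tensorHom_def, neg_left, Preadditive.comp_neg,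
        ← MonoidalCategory.tensorHom_def]
      exact h1.neg
  · rw [MonoidalPreadditive.zero_tensor]
    exact Fac.zero
  · rw [MonoidalPreadditive.add_tensor]
    exact h1.add h2
  · rw [MonoidalCategory.tensorHom_def, neg_right, Preadditive.neg_comp,
      ← MonoidalCategory.tensorHom_def]
    exact h1.neg

/-- the powers in reversed order -/
lemma dp_iso (U : C) (n : ℕ) : Nonempty (Pool.Agent.N413.AFW.dp U n ≅ tp U n) := by
  induction n with
  | zero => exact ⟨Iso.refl _⟩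
  | succ n ih =>
    obtain ⟨i⟩ := ih
    exact ⟨(β_ U (Pool.Agent.N413.AFW.dp U n)) ≪≫ whiskerRightIso i U⟩

lemma dual_iso (U : C) [ExactPairing U U] (n : ℕ) : Nonempty ((tp U n)ᘁ ≅ tp U n) := by
  obtain ⟨i⟩ := dp_iso U n
  let _ : ExactPairing (tp U n) (Pool.Agent.N413.AFW.dp U n) := Pool.Agent.N413.AFW.pairTp U U n
  exact ⟨rightDualIso (X := tp U n) (Y₁ := (tp U n)ᘁ) (Y₂ := Pool.Agent.N413.AFW.dp U n)
    inferInstance inferInstance ≪≫ i⟩

lemma mate_add {X Y : C} (a b : X ⟶ Y) : (a + b)ᘁ = aᘁ + bᘁ := by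
  simp only [rightAdjointMate, MonoidalPreadditive.add_whiskerRight,
    MonoidalPreadditive.whiskerLeft_add, Preadditive.comp_add, Preadditive.add_comp]

lemma mate_zero {X Y : C} : (0 : X ⟶ Y)ᘁ = 0 := by
  simp only [rightAdjointMate, MonoidalPreadditive.zero_whiskerRight,
    MonoidalPreadditive.whiskerLeft_zero, comp_zero, zero_comp]

lemma mate_neg {X Y : C} (a : X ⟶ Y) : (-a)ᘁ = -(aᘁ) := by
  rw [eq_neg_iff_add_eq_zero, ← mate_add, neg_add_cancel, mate_zero]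

lemma Fac.mate [ExactPairing U U] {M M' : C} {x : M ⟶ M'} (hx : Fac U x) :
    Fac U (rightAdjointMate x) := by
  refine hx.induction (p := fun x => Fac U (rightAdjointMate x)) (fun n f g => ?_) ?_ (fun x y h1 h2 => ?_)
    (fun x h1 => ?_)
  · obtain ⟨i⟩ := dual_iso U n
    rw [comp_rightAdjointMate]
    have h1 : rightAdjointMate g ≫ rightAdjointMate f =
        (rightAdjointMate g ≫ i.hom) ≫ i.inv ≫ rightAdjointMate f := by
      rw [Category.assoc, Iso.hom_inv_id_assoc]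
    rw [h1]
    exact Fac.gen _ _
  · rw [mate_zero]
    exact Fac.zero
  · rw [mate_add]
    exact h1.add h2
  · rw [mate_neg]
    exact h1.neg

end

lemma Peel.fac {U M : C} {p : M ⟶ M} (hp : Peel U M p) : Fac U p := by
  induction hp with
  | zero => exact Fac.zero
  | add f g hp h1 h2 h3 h4 ih => exact ih.add (Fac.gen f g)

/-- the unit object is a direct summand of the dual -/
lemma retract_dual {T : C} {i : 𝟙_ C ⟶ T} {r : T ⟶ 𝟙_ C} (h : i ≫ r = 𝟙 (𝟙_ C)) :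
    ∃ (j : 𝟙_ C ⟶ Tᘁ) (s : Tᘁ ⟶ 𝟙_ C), j ≫ s = 𝟙 (𝟙_ C) := by
  let _ : ExactPairing (𝟙_ C) (𝟙_ C) := exactPairingUnit
  let e : (𝟙_ C)ᘁ ≅ 𝟙_ C := rightDualIso (X := 𝟙_ C) (Y₁ := (𝟙_ C)ᘁ) (Y₂ := 𝟙_ C)
    inferInstance inferInstance
  refine ⟨e.inv ≫ (rᘁ), (iᘁ) ≫ e.hom, ?_⟩
  have h1 : (rᘁ) ≫ (iᘁ) = 𝟙 _ := by
    rw [← comp_rightAdjointMate, h, rightAdjointMate_id]
  rw [Category.assoc, reassoc_of% h1, Iso.inv_hom_id]

lemma fac_self {T : C} {i : 𝟙_ C ⟶ T} {r : T ⟶ 𝟙_ C} (h : i ≫ r = 𝟙 (𝟙_ C)) :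
    Fac (T ⊗ Tᘁ) (𝟙 T) := by
  obtain ⟨j, s, hjs⟩ := retract_dual h
  have h1 : 𝟙 T = ((ρ_ T).inv ≫ T ◁ j ≫ (λ_ (T ⊗ Tᘁ)).inv) ≫
      ((λ_ (T ⊗ Tᘁ)).hom ≫ T ◁ s ≫ (ρ_ T).hom) := by
    simp only [Category.assoc, Iso.inv_hom_id_assoc]
    rw [← MonoidalCategory.whiskerLeft_comp_assoc, hjs, MonoidalCategory.whiskerLeft_id,
      Category.id_comp, Iso.inv_hom_id]
  rw [h1]
  exact Fac.gen (U := T ⊗ Tᘁ) (n := 1) _ _

variable [HasBinaryBiproducts C]

/-- The identity of an object of the thick tensor subcategory. -/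
lemma Thick.fac {T : C} {i : 𝟙_ C ⟶ T} {r : T ⟶ 𝟙_ C} (h : i ≫ r = 𝟙 (𝟙_ C))
    [ExactPairing (T ⊗ Tᘁ) (T ⊗ Tᘁ)] {M : C} (hM : Thick T M) : Fac (T ⊗ Tᘁ) (𝟙 M) := by
  induction hM with
  | self => exact fac_self h
  | iso hX e ih =>
    have h1 := (ih.comp_left e.inv).comp_right e.hom
    rwa [Category.comp_id, Iso.inv_hom_id] at h1
  | @sum X Y hX hY ihX ihY =>
    have h1 := ((ihX.comp_left biprod.fst).comp_right biprod.inl).add
      ((ihY.comp_left biprod.snd).comp_right (biprod.inr : Y ⟶ X ⊞ Y))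
    rwa [Category.comp_id, Category.comp_id, biprod.total] at h1
  | tensor hX hY ihX ihY =>
    have h1 := ihX.tensor ihY
    rwa [MonoidalCategory.id_tensorHom_id] at h1
  | dual hX ih =>
    have h1 := ih.mate
    rwa [rightAdjointMate_id] at h1
  | summand hX i r h ih =>
    have h1 := (ih.comp_left i).comp_right r
    rwa [Category.comp_id, h] at h1

lemma Thick.unit {T : C} {i : 𝟙_ C ⟶ T} {r : T ⟶ 𝟙_ C} (h : i ≫ r = 𝟙 (𝟙_ C)) :
    Thick T (𝟙_ C) := Thick.self.summand i r h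

lemma Thick.tp {T : C} {i : 𝟙_ C ⟶ T} {r : T ⟶ 𝟙_ C} (h : i ≫ r = 𝟙 (𝟙_ C)) {X : C}
    (hX : Thick T X) (n : ℕ) : Thick T (Pool.Agent.Y112.KD.tp X n) := by
  induction n with
  | zero => exact Thick.unit h
  | succ n ih => exact ih.tensor hX

lemma Fac.exists_thick {T : C} {i : 𝟙_ C ⟶ T} {r : T ⟶ 𝟙_ C} (h : i ≫ r = 𝟙 (𝟙_ C))
    {M M' : C} {x : M ⟶ M'} (hx : Fac (T ⊗ Tᘁ) x) :
    ∃ Z : C, Thick T Z ∧ ∃ (f : M ⟶ Z) (g : Z ⟶ M'), x = f ≫ g := by
  refine hx.induction (p := fun x => ∃ Z : C, Thick T Z ∧ ∃ (f : M ⟶ Z) (g : Z ⟶ M'), x = f ≫ g)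
    (fun n f g => ?_) ?_ ?_ ?_
  · exact ⟨_, (Thick.self.tensor Thick.self.dual).tp h n, f, g, rfl⟩
  · exact ⟨T, Thick.self, 0, 0, by rw [comp_zero]⟩
  · rintro x y ⟨Z, hZ, f, g, rfl⟩ ⟨Z', hZ', f', g', rfl⟩
    exact ⟨Z ⊞ Z', hZ.sum hZ', biprod.lift f f', biprod.desc g g', by rw [biprod.lift_desc]⟩
  · rintro x ⟨Z, hZ, f, g, rfl⟩
    exact ⟨Z, hZ, -f, g, by rw [Preadditive.neg_comp]⟩

lemma Fac.thick {T : C} {i : 𝟙_ C ⟶ T} {r : T ⟶ 𝟙_ C} (h : i ≫ r = 𝟙 (𝟙_ C))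
    {M : C} (hM : Fac (T ⊗ Tᘁ) (𝟙 M)) : Thick T M := by
  obtain ⟨Z, hZ, f, g, hfg⟩ := hM.exists_thick h
  exact hZ.summand f g hfg.symm

end Pool.Agent.V8H87.AB
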